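import Pool.Agent.L7h11.DP.Pt
import Pool.Agent.R313.FM.Coef
import Pool.Agent.H768R2.SM_T2

set_option autoImplicit false

/-! Project DP: the mean value of `|E(τ)|²`. -/

namespace Pool.Agent.L7h11.DP

open Finset Filter Topology MeasureTheory
open Pool.Agent.H306R2 Pool.Agent.H306R2.SM
open Pool.Agent.H262R4.TM (Rng)
open Pool.Agent.L7h20.TM4 (mo mo_cont mo_norm)

noncomputable section

lemma gI_half : Pool.Agent.W184.gI (1 / 2) 0 = 1 / Real.Gamma (5 / 4) := by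
  unfold Pool.Agent.W184.gI
  have h : ∀ x ∈ Set.uIcc (0 : ℝ) 1, x ^ ((1 / 2 : ℝ) ^ 2 - 1) / Real.Gamma ((1 / 2 : ℝ) ^ 2) *
      Real.exp (-(2 * 0 * x)) = (1 / Real.Gamma (1 / 4)) * x ^ (-(3 / 4) : ℝ) := by
    intro x _
    norm_num
    ring
  rw [intervalIntegral.integral_congr h, intervalIntegral.integral_const_mul,
    integral_rpow (Or.inl (by norm_num))]
  have hG : Real.Gamma (5 / 4) = 1 / 4 * Real.Gamma (1 / 4) := by
    rw [show (5 / 4 : ℝ) = 1 / 4 + 1 by norm_num, Real.Gamma_add_one (by norm_num)]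
  have hp := Real.Gamma_pos_of_pos (show (0 : ℝ) < 1 / 4 by norm_num)
  rw [hG]
  norm_num

/-- `∑_{n ≤ e^x} d_{1/2}(n)²/n` -/
def DD (x : ℝ) : ℝ := ∑ n ∈ Icc 1 ⌊Real.exp x⌋₊, dv (1 / 2) n ^ 2 / n

lemma DD_tendsto : Tendsto (fun x : ℝ => DD x / x ^ (1 / 4 : ℝ)) atTop (𝓝 A0) := by
  have h := Pool.Agent.R313.FM.coef_gen (κ := 1 / 2) (δ := 0) (by norm_num) (fun T => ⌊T⌋₊) (by
    filter_upwards [eventually_ge_atTop 0] with T hT
    exact Nat.floor_le hT) (by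
    intro η hη
    filter_upwards [eventually_ge_atTop 1] with T hT n hn
    have h1 : T ≤ n := (Nat.lt_of_floor_lt hn).le
    have h2 : Real.log T ≤ Real.log n := Real.log_le_log (by linarith) h1
    nlinarith [Real.log_nonneg hT])
  rw [gI_half] at h
  have h2 := h.comp Real.tendsto_exp_atTop
  have e : aF (1 / 2) * (1 / Real.Gamma (5 / 4)) = A0 := by unfold A0; ring
  rw [e] at h2
  refine h2.congr fun x => ?_
  simp only [Function.comp]
  rw [Real.log_exp]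
  unfold DD
  congr 1
  · refine sum_congr rfl fun n hn => ?_
    have hn0 : (0 : ℝ) < n := by exact_mod_cast (mem_Icc.1 hn).1
    rw [show -(2 * (1 / 2 + 0 / x)) = (-1 : ℝ) by ring, Real.rpow_neg_one]
    rfl
  · norm_num

lemma DD_mono {x y : ℝ} (h : x ≤ y) : DD x ≤ DD y := by
  unfold DD
  refine sum_le_sum_of_subset_of_nonneg (Icc_subset_Icc_right (Nat.floor_le_floor (Real.exp_le_exp.2 h)))
    fun n _ _ => by positivity

lemma A0_pos : 0 < A0 := div_pos (aF_pos (by norm_num)) (Real.Gamma_pos_of_pos (by norm_num))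

lemma DD_bd {ε : ℝ} (hε : 0 < ε) : ∃ C : ℝ, 0 ≤ C ∧ ∀ x : ℝ, 0 ≤ x →
    DD x ≤ (1 + ε) * A0 * x ^ (1 / 4 : ℝ) + C := by
  have h1 : A0 < (1 + ε) * A0 := by nlinarith [A0_pos]
  obtain ⟨x0, hx0⟩ := eventually_atTop.1 ((DD_tendsto.eventually_lt_const h1).and (eventually_ge_atTop 1))
  refine ⟨DD x0, by unfold DD; positivity, fun x hx => ?_⟩
  have hnn : 0 ≤ (1 + ε) * A0 * x ^ (1 / 4 : ℝ) := by have := A0_pos; positivity
  rcases le_total x x0 with h | h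
  · exact (DD_mono h).trans (by linarith)
  · obtain ⟨h2, h3⟩ := hx0 x h
    have hx1 : 0 < x ^ (1 / 4 : ℝ) := Real.rpow_pos_of_pos (by linarith) _
    rw [div_lt_iff₀ hx1] at h2
    have : 0 ≤ DD x0 := by unfold DD; positivity
    linarith

lemma mo_eq {n : ℕ} (hn : 1 ≤ n) (t : ℝ) :
    mo n t = (((1 / √(n : ℝ) : ℝ)) : ℂ) * ef (-(Real.log n)) t := by
  have hn0 : (0 : ℝ) < n := by exact_mod_cast hn
  unfold Pool.Agent.L7h20.TM4.mo cl ef
  have e : (n : ℂ) = ((n : ℝ) : ℂ) := by norm_cast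
  have hne : (n : ℂ) ≠ 0 := by exact_mod_cast hn0.ne'
  rw [Complex.cpow_def_of_ne_zero hne, show Complex.log (n : ℂ) = ((Real.log n : ℝ) : ℂ) by
    rw [e, Complex.ofReal_log hn0.le]]
  have e2 : ((Real.log n : ℝ) : ℂ) * -(1 / 2 + (t : ℂ) * Complex.I) =
      ((-(1 / 2) * Real.log n : ℝ) : ℂ) + (((-(Real.log n)) * t : ℝ) : ℂ) * Complex.I := by
    push_cast; ring
  rw [e2, Complex.exp_add]
  congr 1
  rw [← Complex.ofReal_exp]
  congr 1
  rw [Real.sqrt_eq_rpow, one_div ((n : ℝ) ^ (1 / 2 : ℝ)), ← Real.rpow_neg hn0.le,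
    Real.rpow_def_of_pos hn0]
  congr 1
  ring

lemma log_sep {m n N : ℕ} (hm : 1 ≤ m) (hn : 1 ≤ n) (hmN : m ≤ N) (hnN : n ≤ N) (hne : m ≠ n) :
    1 / (2 * (N : ℝ)) ≤ |Real.log m - Real.log n| := by
  wlog h : m < n generalizing m n
  · rw [abs_sub_comm]
    exact this hn hm hnN hmN hne.symm (by omega)
  have hm0 : (0 : ℝ) < m := by exact_mod_cast hm
  have hn0 : (0 : ℝ) < n := by exact_mod_cast hn
  have hN0 : (0 : ℝ) < N := lt_of_lt_of_le hn0 (by exact_mod_cast hnN)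
  have h1 : (m : ℝ) + 1 ≤ n := by exact_mod_cast h
  have h2 : 1 - (m : ℝ) / n ≤ Real.log n - Real.log m := by
    have := Real.log_le_sub_one_of_pos (show 0 < (m : ℝ) / n by positivity)
    rw [Real.log_div hm0.ne' hn0.ne'] at this
    linarith
  have h3 : 1 / (n : ℝ) ≤ 1 - (m : ℝ) / n := by
    rw [le_sub_iff_add_le, ← add_div, div_le_one hn0]
    linarith
  have h4 : 1 / (2 * (N : ℝ)) ≤ 1 / (n : ℝ) := by
    apply one_div_le_one_div_of_le hn0
    have : (n : ℝ) ≤ N := by exact_mod_cast hnN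
    linarith
  rw [abs_sub_comm]
  exact (h4.trans (h3.trans h2)).trans (le_abs_self _)

/-- the mean value of `|E(τ)|²` -/
theorem E_mean {ε : ℝ} (hε : 0 < ε) : ∃ C : ℝ, 0 ≤ C ∧ ∀ᶠ T : ℝ in atTop, ∀ k : ℕ, Rng T k →
    ∀ N : ℕ, (N : ℝ) ≤ T ^ (3 / 5 : ℝ) → ∀ τ : ℝ, 0 ≤ τ →
      ∫ t in Set.Ioi (0 : ℝ), om k (k / T) t * ‖EP N τ t‖ ^ 2 ≤ (1 + ε) * A0 * τ ^ (1 / 4 : ℝ) + C := by
  obtain ⟨C, hC, hD⟩ := DD_bd hε
  refine ⟨C + 1, by linarith, ?_⟩
  have s1 : ∀ᶠ T : ℝ in atTop, 8 * Real.log T ^ 2 * T ^ (-(2 / 5) : ℝ) ≤ T ^ (-(1 / 5) : ℝ) := by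
    have h := (isLittleO_log_rpow_atTop (show (0 : ℝ) < 1 / 20 by norm_num)).bound
      (show (0 : ℝ) < 1 / 8 by norm_num)
    filter_upwards [h, eventually_gt_atTop 1] with T h hT1
    have hT0 : 0 < T := by linarith
    have hL : 0 < Real.log T := Real.log_pos hT1
    rw [Real.norm_of_nonneg hL.le, Real.norm_of_nonneg (by positivity)] at h
    have h2 : Real.log T ^ 2 ≤ (1 / 8 * T ^ (1 / 20 : ℝ)) ^ 2 := pow_le_pow_left₀ hL.le h 2
    have h3 : (T ^ (1 / 20 : ℝ)) ^ 2 = T ^ (1 / 10 : ℝ) := by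
      rw [← Real.rpow_natCast, ← Real.rpow_mul hT0.le]; norm_num
    rw [mul_pow, h3] at h2
    calc 8 * Real.log T ^ 2 * T ^ (-(2 / 5) : ℝ)
        ≤ 8 * ((1 / 8) ^ 2 * T ^ (1 / 10 : ℝ)) * T ^ (-(2 / 5) : ℝ) := by gcongr
      _ = (1 / 8) * (T ^ (1 / 10 : ℝ) * T ^ (-(2 / 5) : ℝ)) := by ring
      _ = (1 / 8) * T ^ (-(3 / 10) : ℝ) := by rw [← Real.rpow_add hT0]; norm_num
      _ ≤ 1 * T ^ (-(1 / 5) : ℝ) := by
          have := Real.rpow_le_rpow_of_exponent_le hT1.le (show (-(3 / 10) : ℝ) ≤ -(1 / 5) by norm_num)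
          have h5 : 0 ≤ T ^ (-(3 / 10) : ℝ) := by positivity
          linarith
      _ = _ := one_mul _
  filter_upwards [s1, Real.tendsto_log_atTop.eventually_ge_atTop 4, eventually_gt_atTop 1]
    with T s1 hL hT1 k hk N hN τ hτ
  have hT0 : 0 < T := by linarith
  have hk0 : (0 : ℝ) < k := lt_of_lt_of_le (by nlinarith) hk.1
  rcases Nat.eq_zero_or_pos N with hN0 | hN0
  · subst hN0
    unfold EP
    simp only [show Icc 1 0 = (∅ : Finset ℕ) by rfl, sum_empty, norm_zero]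
    have := A0_pos
    have h0 : 0 ≤ (1 + ε) * A0 * τ ^ (1 / 4 : ℝ) := by positivity
    simp
    linarith
  have hNr : (0 : ℝ) < N := by exact_mod_cast hN0
  have hd : (0 : ℝ) < k / T := by positivity
  set x : ℕ → ℂ := fun n => (((if Real.log n ≤ τ then dv (1 / 2) n else 0) / √(n : ℝ) : ℝ) : ℂ) with hx
  have h1 := Pool.Agent.H768R2.SM_T2.norm_diag (Icc 1 N) x (fun n => Real.log n) (1 / (2 * (N : ℝ)))
    (by positivity) (fun i hi j hj hij => log_sep (mem_Icc.1 hi).1 (mem_Icc.1 hj).1 (mem_Icc.1 hi).2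
      (mem_Icc.1 hj).2 hij) k (k / T) hd
  have e1 : ∀ t, EP N τ t = ∑ i ∈ Icc 1 N, x i * ef (-(Real.log i)) t := by
    intro t
    unfold EP
    refine sum_congr rfl fun n hn => ?_
    rw [mo_eq (mem_Icc.1 hn).1, ← mul_assoc, ← Complex.ofReal_mul, hx]
    congr 2
    ring
  simp only [← e1] at h1
  have e2 : ∑ i ∈ Icc 1 N, ‖x i‖ ^ 2 ≤ DD τ := by
    have h3 : ∀ i ∈ Icc 1 N, ‖x i‖ ^ 2 = if Real.log i ≤ τ then dv (1 / 2) i ^ 2 / i else 0 := by
      intro i hi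
      rw [hx]
      simp only
      rw [Complex.norm_real, Real.norm_eq_abs, sq_abs, div_pow, Real.sq_sqrt (Nat.cast_nonneg i)]
      split_ifs <;> simp
    rw [sum_congr rfl h3, ← sum_filter]
    unfold DD
    refine sum_le_sum_of_subset_of_nonneg (fun i hi => ?_) fun i _ _ => by positivity
    rw [mem_filter, mem_Icc] at hi
    rw [mem_Icc]
    refine ⟨hi.1.1, Nat.le_floor ?_⟩
    exact (Real.log_le_iff_le_exp (by exact_mod_cast hi.1.1)).1 hi.2
  have e3 : ∑ i ∈ Icc 1 N, ‖x i‖ ≤ N := by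
    have h3 : ∀ i ∈ Icc 1 N, ‖x i‖ ≤ 1 := by
      intro i hi
      have hi1 := (mem_Icc.1 hi).1
      have hi0 : (1 : ℝ) ≤ i := by exact_mod_cast hi1
      rw [hx]
      simp only
      rw [Complex.norm_real, Real.norm_eq_abs]
      have hb : |(if Real.log i ≤ τ then dv (1 / 2) i else 0 : ℝ)| ≤ 1 := by
        split_ifs
        · rw [abs_of_nonneg (dv_nonneg (by norm_num) i)]
          have := dv_mono (α := 1 / 2) (β := 1) (by norm_num) (by norm_num) i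
          refine this.trans (le_of_eq ?_)
          have h5 : dA 1 i = zR i := by rw [dA_one]
          rw [dA_apply] at h5
          rw [h5]
          unfold zR
          have : i ≠ 0 := by omega
          simp [this]
        · simp
      have hs : 1 ≤ √(i : ℝ) := by
        rw [show (1 : ℝ) = √1 by simp]
        exact Real.sqrt_le_sqrt hi0
      rw [abs_div, abs_of_nonneg (Real.sqrt_nonneg _), div_le_one (by linarith)]
      exact hb.trans hs
    refine (sum_le_sum h3).trans (le_of_eq (by simp))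
  have e4 : (∑ i ∈ Icc 1 N, ‖x i‖) ^ 2 * (k / T / (1 / (2 * (N : ℝ)))) ^ (k + 1) ≤ 1 := by
    have h3 : (k : ℝ) / T / (1 / (2 * (N : ℝ))) ≤ T ^ (-(1 / 5) : ℝ) := by
      calc (k : ℝ) / T / (1 / (2 * (N : ℝ))) = 2 * k * (N * T⁻¹) := by field_simp
        _ ≤ 2 * (4 * Real.log T ^ 2) * (T ^ (3 / 5 : ℝ) * T⁻¹) := by
            gcongr
            exact hk.2
        _ = 8 * Real.log T ^ 2 * (T ^ (3 / 5 : ℝ) * T ^ (-1 : ℝ)) := by
            rw [Real.rpow_neg_one]; ring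
        _ = 8 * Real.log T ^ 2 * T ^ (-(2 / 5) : ℝ) := by rw [← Real.rpow_add hT0]; norm_num
        _ ≤ _ := s1
    have h4 : 0 ≤ (k : ℝ) / T / (1 / (2 * (N : ℝ))) := by positivity
    have h5 : (k / T / (1 / (2 * (N : ℝ)))) ^ (k + 1) ≤ (T ^ (-(1 / 5) : ℝ)) ^ (k + 1) :=
      pow_le_pow_left₀ h4 h3 _
    have hk10 : 9 ≤ k := by
      have : (9 : ℝ) ≤ k := le_trans (by nlinarith) hk.1
      exact_mod_cast this
    have h6 : (T ^ (-(1 / 5) : ℝ)) ^ (k + 1) ≤ (T ^ (-(1 / 5) : ℝ)) ^ 10 := by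
      refine pow_le_pow_of_le_one (by positivity) ?_ (by omega)
      exact Real.rpow_le_one_of_one_le_of_nonpos hT1.le (by norm_num)
    have h7 : (T ^ (-(1 / 5) : ℝ)) ^ 10 = T ^ (-2 : ℝ) := by
      rw [← Real.rpow_natCast, ← Real.rpow_mul hT0.le]; norm_num
    have h8 : (∑ i ∈ Icc 1 N, ‖x i‖) ^ 2 ≤ T ^ (2 : ℝ) := by
      have h9 : (∑ i ∈ Icc 1 N, ‖x i‖) ≤ T := by
        refine e3.trans (hN.trans ?_)
        calc T ^ (3 / 5 : ℝ) ≤ T ^ (1 : ℝ) := Real.rpow_le_rpow_of_exponent_le hT1.le (by norm_num)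
          _ = T := Real.rpow_one T
      rw [show T ^ (2 : ℝ) = T ^ 2 by norm_cast]
      exact pow_le_pow_left₀ (sum_nonneg fun _ _ => norm_nonneg _) h9 2
    calc (∑ i ∈ Icc 1 N, ‖x i‖) ^ 2 * (k / T / (1 / (2 * (N : ℝ)))) ^ (k + 1)
        ≤ T ^ (2 : ℝ) * T ^ (-2 : ℝ) := by
          refine mul_le_mul h8 ((h5.trans h6).trans (le_of_eq h7)) (by positivity) (by positivity)
      _ = 1 := by rw [← Real.rpow_add hT0]; norm_num
  have h9 := (abs_le.1 h1).2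
  have h10 := hD τ hτ
  linarith

end

end Pool.Agent.L7h11.DP
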