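import Mathlib

set_option autoImplicit false

/-! Project DP: the numerical inequality. -/

namespace Pool.Agent.L7h11.DP

noncomputable section

/-- the contribution of the piece `[α, β]` with the constant `ρ` -/
def PP (θ α β ρ : ℝ) : ℝ := 1 / 2 * (ρ * (4 / 5 * (β ^ (5 / 4 : ℝ) - α ^ (5 / 4 : ℝ))) +
  ρ⁻¹ * (Real.pi / 4 * (θ⁻¹ * (4 / 5 * ((1 - α) ^ (5 / 4 : ℝ) - (1 - β) ^ (5 / 4 : ℝ))) +
    4 / 5 * (4 / 9 * ((1 - α) ^ (9 / 4 : ℝ) - (1 - β) ^ (9 / 4 : ℝ))))))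

lemma rpow54 {x : ℝ} (hx : 0 < x) : x ^ (5 / 4 : ℝ) = x * x ^ (1 / 4 : ℝ) := by
  rw [show (5 / 4 : ℝ) = 1 + 1 / 4 by norm_num, Real.rpow_add hx, Real.rpow_one]

lemma rpow94 {x : ℝ} (hx : 0 < x) : x ^ (9 / 4 : ℝ) = x ^ 2 * x ^ (1 / 4 : ℝ) := by
  rw [show (9 / 4 : ℝ) = 2 + 1 / 4 by norm_num, Real.rpow_add hx, Real.rpow_two]

lemma quart_le {x y : ℝ} (hx : 0 ≤ x) (hy : 0 ≤ y) (h : x ≤ y ^ 4) : x ^ (1 / 4 : ℝ) ≤ y := by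
  calc x ^ (1 / 4 : ℝ) ≤ (y ^ 4) ^ (1 / 4 : ℝ) := Real.rpow_le_rpow hx h (by norm_num)
    _ = y := by
        rw [← Real.rpow_natCast, ← Real.rpow_mul hy]
        norm_num

lemma le_quart {x y : ℝ} (hy : 0 ≤ y) (h : y ^ 4 ≤ x) : y ≤ x ^ (1 / 4 : ℝ) := by
  calc y = (y ^ 4) ^ (1 / 4 : ℝ) := by
        rw [← Real.rpow_natCast, ← Real.rpow_mul hy]
        norm_num
    _ ≤ x ^ (1 / 4 : ℝ) := Real.rpow_le_rpow (by positivity) h (by norm_num)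

theorem num : 3 / 2 * (259 / 500 : ℝ) ^ (1 / 4 : ℝ) *
    (PP (259 / 500) 0 (1 / 4) (15 / 8) + PP (259 / 500) (1 / 4) (3 / 4) (4 / 3) +
      PP (259 / 500) (3 / 4) 1 (19 / 20)) < 34 / 25 := by
  have a1 : (1 / 4 : ℝ) ^ (1 / 4 : ℝ) ≤ 70711 / 100000 := quart_le (by norm_num) (by norm_num) (by norm_num)
  have a2 : 7071 / 10000 ≤ (1 / 4 : ℝ) ^ (1 / 4 : ℝ) := le_quart (by norm_num) (by norm_num)
  have b1 : (3 / 4 : ℝ) ^ (1 / 4 : ℝ) ≤ 93061 / 100000 := quart_le (by norm_num) (by norm_num) (by norm_num)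
  have b2 : 9306 / 10000 ≤ (3 / 4 : ℝ) ^ (1 / 4 : ℝ) := le_quart (by norm_num) (by norm_num)
  have c1 : (259 / 500 : ℝ) ^ (1 / 4 : ℝ) ≤ 8484 / 10000 := quart_le (by norm_num) (by norm_num) (by norm_num)
  have hpi := Real.pi_lt_d4
  have hpi0 := Real.pi_gt_three
  unfold PP
  simp only [sub_zero, sub_self, Real.one_rpow]
  rw [Real.zero_rpow (by norm_num), show (1 : ℝ) - 1 / 4 = 3 / 4 by norm_num,
    show (1 : ℝ) - 3 / 4 = 1 / 4 by norm_num, Real.zero_rpow (by norm_num : (9 / 4 : ℝ) ≠ 0),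
    rpow54 (by norm_num : (0 : ℝ) < 1 / 4), rpow54 (by norm_num : (0 : ℝ) < 3 / 4),
    rpow94 (by norm_num : (0 : ℝ) < 1 / 4), rpow94 (by norm_num : (0 : ℝ) < 3 / 4)]
  set a := (1 / 4 : ℝ) ^ (1 / 4 : ℝ)
  set b := (3 / 4 : ℝ) ^ (1 / 4 : ℝ)
  set c := (259 / 500 : ℝ) ^ (1 / 4 : ℝ) with hc
  have hc0 : 0 < c := by rw [hc]; positivity
  set X := (1 / 2 * (15 / 8 * (4 / 5 * (1 / 4 * a - 0)) +
    (15 / 8 : ℝ)⁻¹ * (Real.pi / 4 * ((259 / 500 : ℝ)⁻¹ * (4 / 5 * (1 - 3 / 4 * b)) +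
      4 / 5 * (4 / 9 * (1 - (3 / 4) ^ 2 * b))))) +
    1 / 2 * (4 / 3 * (4 / 5 * (3 / 4 * b - 1 / 4 * a)) +
      (4 / 3 : ℝ)⁻¹ * (Real.pi / 4 * ((259 / 500 : ℝ)⁻¹ * (4 / 5 * (3 / 4 * b - 1 / 4 * a)) +
        4 / 5 * (4 / 9 * ((3 / 4) ^ 2 * b - (1 / 4) ^ 2 * a))))) +
    1 / 2 * (19 / 20 * (4 / 5 * (1 - 3 / 4 * b)) +
      (19 / 20 : ℝ)⁻¹ * (Real.pi / 4 * ((259 / 500 : ℝ)⁻¹ * (4 / 5 * (1 / 4 * a - 0)) +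
        4 / 5 * (4 / 9 * ((1 / 4) ^ 2 * a - 0)))))) with hX
  set M := 1 / 2 * ((15 / 8 : ℝ)⁻¹ * (1 / 4 * ((259 / 500 : ℝ)⁻¹ * (4 / 5 * (1 - 3 / 4 * b)) +
      4 / 5 * (4 / 9 * (1 - (3 / 4) ^ 2 * b))))) +
    1 / 2 * ((4 / 3 : ℝ)⁻¹ * (1 / 4 * ((259 / 500 : ℝ)⁻¹ * (4 / 5 * (3 / 4 * b - 1 / 4 * a)) +
        4 / 5 * (4 / 9 * ((3 / 4) ^ 2 * b - (1 / 4) ^ 2 * a))))) +
    1 / 2 * ((19 / 20 : ℝ)⁻¹ * (1 / 4 * ((259 / 500 : ℝ)⁻¹ * (4 / 5 * (1 / 4 * a)) +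
        4 / 5 * (4 / 9 * ((1 / 4) ^ 2 * a))))) with hM
  have eX : X = 1 / 2 * (15 / 8 * (4 / 5 * (1 / 4 * a))) + 1 / 2 * (4 / 3 * (4 / 5 * (3 / 4 * b - 1 / 4 * a))) +
      1 / 2 * (19 / 20 * (4 / 5 * (1 - 3 / 4 * b))) + Real.pi * M := by
    rw [hX, hM]; ring
  have hM0 : 0 ≤ M := by
    rw [hM]
    have h1 : 0 ≤ 1 - 3 / 4 * b := by linarith
    have h2 : 0 ≤ 1 - (3 / 4) ^ 2 * b := by linarith
    have h3 : 0 ≤ 3 / 4 * b - 1 / 4 * a := by linarith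
    have h4 : 0 ≤ (3 / 4) ^ 2 * b - (1 / 4) ^ 2 * a := by linarith
    have h5 : 0 ≤ a := by linarith
    positivity
  have hM1 : M ≤ 172 / 1000 := by
    rw [hM]
    norm_num
    linarith
  have key : X ≤ 1068 / 1000 := by
    rw [eX]
    have h1 : Real.pi * M ≤ 3.1416 * (172 / 1000) := mul_le_mul hpi.le hM1 hM0 (by norm_num)
    norm_num at h1 ⊢
    linarith
  have hX0 : 0 ≤ X := by
    rw [eX]
    have h1 : 0 ≤ 1 - 3 / 4 * b := by linarith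
    have h3 : 0 ≤ 3 / 4 * b - 1 / 4 * a := by linarith
    have h5 : 0 ≤ a := by linarith
    positivity
  calc 3 / 2 * c * X ≤ 3 / 2 * (8484 / 10000) * (1068 / 1000) := by gcongr
    _ < 34 / 25 := by norm_num

end

end Pool.Agent.L7h11.DP
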