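import Pool.Agent.L7h11.DP.Mm
import Pool.Agent.L7h11.DP.Em
import Pool.Agent.L7h11.DP.Num
import Pool.Agent.L7h20.TM3.Win

set_option autoImplicit false

/-! Project DP: the first moment, assembly. -/

namespace Pool.Agent.L7h11.DP

open Finset Filter Topology MeasureTheory
open Pool.Agent.H306R2 Pool.Agent.H306R2.SM
open Pool.Agent.H262R4.TM (P_TSM2 Rng Ck)
open Pool.Agent.L7h20.TM3 (wt wt_intg wt_nn zeta_cl_cont zeta_cl_bd upper_window)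
open Pool.Agent.L7h20.TM4 (mo mo_cont mo_norm nsq rr rr_cont rr_bd)

noncomputable section

/-- the polynomial with coefficients depending on `τ` -/
def PZ (N : ℕ) (a : ℕ → ℝ → ℝ) (τ t : ℝ) : ℂ := ∑ n ∈ Icc 1 N, ((a n τ : ℝ) : ℂ) * mo n t

lemma PZ_sq (N : ℕ) (a : ℕ → ℝ → ℝ) (τ t : ℝ) : ‖PZ N a τ t‖ ^ 2 =
    ∑ m ∈ Icc 1 N, ∑ n ∈ Icc 1 N, a m τ * a n τ * rr m n t := nsq N (fun n => a n τ) t

/-- double sums of interval integrable functions -/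
lemma dsum_ii {x y : ℝ} (N : ℕ) (g : ℕ → ℕ → ℝ → ℝ) (c : ℕ → ℕ → ℝ)
    (hg : ∀ m n, IntervalIntegrable (g m n) volume x y) :
    IntervalIntegrable (fun τ => ∑ m ∈ Icc 1 N, ∑ n ∈ Icc 1 N, g m n τ * c m n) volume x y := by
  have h1 : ∀ m, IntervalIntegrable (fun τ => ∑ n ∈ Icc 1 N, g m n τ * c m n) volume x y := by
    intro m
    have h2 : (fun τ => ∑ n ∈ Icc 1 N, g m n τ * c m n) = ∑ n ∈ Icc 1 N, fun τ => g m n τ * c m n := by
      funext τ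
      simp only [Finset.sum_apply]
    rw [h2]
    exact IntervalIntegrable.sum _ fun n _ => (hg m n).mul_const _
  have h2 : (fun τ => ∑ m ∈ Icc 1 N, ∑ n ∈ Icc 1 N, g m n τ * c m n) =
      ∑ m ∈ Icc 1 N, fun τ => ∑ n ∈ Icc 1 N, g m n τ * c m n := by
    funext τ
    simp only [Finset.sum_apply]
  rw [h2]
  exact IntervalIntegrable.sum _ fun m _ => h1 m

lemma dsum_int {x y : ℝ} (N : ℕ) (g : ℕ → ℕ → ℝ → ℝ) (c : ℕ → ℕ → ℝ)
    (hg : ∀ m n, IntervalIntegrable (g m n) volume x y) :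
    ∫ τ in x..y, (∑ m ∈ Icc 1 N, ∑ n ∈ Icc 1 N, g m n τ * c m n) =
      ∑ m ∈ Icc 1 N, ∑ n ∈ Icc 1 N, (∫ τ in x..y, g m n τ) * c m n := by
  have h1 : ∀ m, IntervalIntegrable (fun τ => ∑ n ∈ Icc 1 N, g m n τ * c m n) volume x y := by
    intro m
    have h2 : (fun τ => ∑ n ∈ Icc 1 N, g m n τ * c m n) = ∑ n ∈ Icc 1 N, fun τ => g m n τ * c m n := by
      funext τ
      simp only [Finset.sum_apply]
    rw [h2]
    exact IntervalIntegrable.sum _ fun n _ => (hg m n).mul_const _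
  rw [intervalIntegral.integral_finsetSum fun m _ => h1 m]
  refine sum_congr rfl fun m _ => ?_
  rw [intervalIntegral.integral_finsetSum fun n _ => (hg m n).mul_const _]
  refine sum_congr rfl fun n _ => ?_
  rw [intervalIntegral.integral_mul_const]

/-- the integral over `t` of a square -/
lemma t_int {w : ℝ → ℝ} (hw : ∀ m n, IntegrableOn (fun t => w t * rr m n t) (Set.Ioi 0)) (N : ℕ)
    (c : ℕ → ℕ → ℝ) :
    IntegrableOn (fun t => w t * ∑ m ∈ Icc 1 N, ∑ n ∈ Icc 1 N, c m n * rr m n t) (Set.Ioi 0) ∧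
    ∫ t in Set.Ioi (0 : ℝ), w t * (∑ m ∈ Icc 1 N, ∑ n ∈ Icc 1 N, c m n * rr m n t) =
      ∑ m ∈ Icc 1 N, ∑ n ∈ Icc 1 N, c m n * ∫ t in Set.Ioi (0 : ℝ), w t * rr m n t := by
  have e : ∀ t, w t * (∑ m ∈ Icc 1 N, ∑ n ∈ Icc 1 N, c m n * rr m n t) =
      ∑ m ∈ Icc 1 N, ∑ n ∈ Icc 1 N, c m n * (w t * rr m n t) := by
    intro t
    rw [mul_sum]
    refine sum_congr rfl fun m _ => ?_
    rw [mul_sum]
    refine sum_congr rfl fun n _ => ?_
    ring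
  simp only [e]
  constructor
  · exact integrable_finsetSum _ fun m _ => integrable_finsetSum _ fun n _ => (hw m n).const_mul _
  · rw [integral_finsetSum]
    · refine sum_congr rfl fun m _ => ?_
      rw [integral_finsetSum]
      · refine sum_congr rfl fun n _ => ?_
        rw [integral_const_mul]
      · intro n _
        exact (hw m n).const_mul _
    · intro m _
      exact integrable_finsetSum _ fun n _ => (hw m n).const_mul _

theorem swap {w : ℝ → ℝ} (hw : ∀ m n, IntegrableOn (fun t => w t * rr m n t) (Set.Ioi 0)) {x y : ℝ} (N : ℕ)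
    (a : ℕ → ℝ → ℝ) (ha : ∀ m n, IntervalIntegrable (fun τ => a m τ * a n τ) volume x y) :
    IntegrableOn (fun t => w t * ∫ τ in x..y, ‖PZ N a τ t‖ ^ 2) (Set.Ioi 0) ∧
    IntervalIntegrable (fun τ => ∫ t in Set.Ioi (0 : ℝ), w t * ‖PZ N a τ t‖ ^ 2) volume x y ∧
    ∫ t in Set.Ioi (0 : ℝ), w t * ∫ τ in x..y, ‖PZ N a τ t‖ ^ 2 =
      ∫ τ in x..y, ∫ t in Set.Ioi (0 : ℝ), w t * ‖PZ N a τ t‖ ^ 2 := by
  have e1 : ∀ t, ∫ τ in x..y, ‖PZ N a τ t‖ ^ 2 =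
      ∑ m ∈ Icc 1 N, ∑ n ∈ Icc 1 N, (∫ τ in x..y, a m τ * a n τ) * rr m n t := by
    intro t
    simp only [PZ_sq]
    exact dsum_int N (fun m n τ => a m τ * a n τ) (fun m n => rr m n t) ha
  have e2 : ∀ τ, ∫ t in Set.Ioi (0 : ℝ), w t * ‖PZ N a τ t‖ ^ 2 =
      ∑ m ∈ Icc 1 N, ∑ n ∈ Icc 1 N, a m τ * a n τ * ∫ t in Set.Ioi (0 : ℝ), w t * rr m n t := by
    intro τ
    simp only [PZ_sq]
    exact (t_int hw N (fun m n => a m τ * a n τ)).2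
  refine ⟨?_, ?_, ?_⟩
  · simp only [e1]
    exact (t_int hw N _).1
  · simp only [e2]
    exact dsum_ii N (fun m n τ => a m τ * a n τ) (fun m n => ∫ t in Set.Ioi (0 : ℝ), w t * rr m n t) ha
  · simp only [e1, e2]
    rw [(t_int hw N _).2]
    exact (dsum_int N (fun m n τ => a m τ * a n τ) (fun m n => ∫ t in Set.Ioi (0 : ℝ), w t * rr m n t)
      ha).symm

/-- coefficients of `E` -/
def aE (n : ℕ) (τ : ℝ) : ℝ := if Real.log n ≤ τ then dv (1 / 2) n else 0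

/-- coefficients of `M (ℓ - τ)` -/
def aM (ℓ : ℝ) (n : ℕ) (τ : ℝ) : ℝ := fc n * √(ℓ - τ - Real.log n)

lemma EP_eq (N : ℕ) (τ t : ℝ) : EP N τ t = PZ N aE τ t := rfl

lemma MP_eq (N : ℕ) (ℓ τ t : ℝ) : MP N (ℓ - τ) t = PZ N (aM ℓ) τ t := rfl

lemma aE_ii (m n : ℕ) (x y : ℝ) : IntervalIntegrable (fun τ => aE m τ * aE n τ) volume x y := by
  have h : (fun τ => aE m τ * aE n τ) = fun τ => (dv (1 / 2) m * dv (1 / 2) n) *
      (if max (Real.log m) (Real.log n) ≤ τ then (1 : ℝ) else 0) := by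
    funext τ
    unfold aE
    by_cases h1 : Real.log m ≤ τ <;> by_cases h2 : Real.log n ≤ τ <;> simp [h1, h2]
  rw [h]
  exact (step_ii _ x y).const_mul _

lemma aM_ii (ℓ : ℝ) (m n : ℕ) (x y : ℝ) : IntervalIntegrable (fun τ => aM ℓ m τ * aM ℓ n τ) volume x y := by
  unfold aM
  exact Continuous.intervalIntegrable (by fun_prop) _ _

/-- products of `E` and `M` are interval integrable -/
lemma EM_ii (N : ℕ) (ℓ t x y : ℝ) :
    IntervalIntegrable (fun τ => EP N τ t * MP N (ℓ - τ) t) volume x y := by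
  have h1 : IntervalIntegrable (fun τ => EP N τ t) volume x y := by
    unfold EP
    have h2 : (fun τ : ℝ => ∑ n ∈ Icc 1 N, ((if Real.log n ≤ τ then dv (1 / 2) n else 0 : ℝ) : ℂ) * mo n t) =
        ∑ n ∈ Icc 1 N, fun τ : ℝ => (((if Real.log n ≤ τ then (1 : ℝ) else 0) : ℝ) : ℂ) *
          (((dv (1 / 2) n : ℝ) : ℂ) * mo n t) := by
      funext τ
      simp only [Finset.sum_apply]
      refine sum_congr rfl fun n _ => ?_
      split_ifs <;> simp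
    rw [h2]
    refine IntervalIntegrable.sum _ fun n _ => ?_
    have h3 := step_ii (Real.log n) x y
    have h4 : IntervalIntegrable (fun τ : ℝ => (((if Real.log n ≤ τ then (1 : ℝ) else 0) : ℝ) : ℂ)) volume x y :=
      ⟨h3.1.ofReal, h3.2.ofReal⟩
    exact h4.mul_const _
  refine h1.mul_continuousOn ?_
  unfold MP
  fun_prop

/-- the mean value of `|E(τ)|²` -/
def EE (k : ℕ) (T : ℝ) (N : ℕ) (τ : ℝ) : ℝ := ∫ t in Set.Ioi (0 : ℝ), om k (k / T) t * ‖EP N τ t‖ ^ 2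

/-- the mean value of `|ζ M(c)|²` -/
def WM (k : ℕ) (T : ℝ) (N : ℕ) (c : ℝ) : ℝ := ∫ t in Set.Ioi (0 : ℝ), wt k T t * ‖MP N c t‖ ^ 2

/-- the pointwise inequality on a piece -/
lemma piece_pt (N : ℕ) (ℓ t : ℝ) {x y r z : ℝ} (hxy : x ≤ y) (hr : 0 < r) (hz : 0 ≤ z) :
    z * ‖∫ τ in x..y, EP N τ t * MP N (ℓ - τ) t‖ ≤
      1 / 2 * (r * (∫ τ in x..y, ‖PZ N aE τ t‖ ^ 2) + r⁻¹ * (z ^ 2 * ∫ τ in x..y, ‖PZ N (aM ℓ) τ t‖ ^ 2)) := by
  have h1 : ‖∫ τ in x..y, EP N τ t * MP N (ℓ - τ) t‖ ≤ ∫ τ in x..y, ‖EP N τ t * MP N (ℓ - τ) t‖ :=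
    intervalIntegral.norm_integral_le_integral_norm hxy
  have i1 : IntervalIntegrable (fun τ => ‖PZ N aE τ t‖ ^ 2) volume x y := by
    simp only [PZ_sq]
    exact dsum_ii N (fun m n τ => aE m τ * aE n τ) (fun m n => rr m n t) (fun m n => aE_ii m n x y)
  have i2 : IntervalIntegrable (fun τ => ‖PZ N (aM ℓ) τ t‖ ^ 2) volume x y := by
    simp only [PZ_sq]
    exact dsum_ii N (fun m n τ => aM ℓ m τ * aM ℓ n τ) (fun m n => rr m n t) (fun m n => aM_ii ℓ m n x y)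
  have h2 : z * (∫ τ in x..y, ‖EP N τ t * MP N (ℓ - τ) t‖) ≤
      ∫ τ in x..y, (1 / 2 * (r * ‖PZ N aE τ t‖ ^ 2) + 1 / 2 * (r⁻¹ * (z ^ 2 * ‖PZ N (aM ℓ) τ t‖ ^ 2))) := by
    rw [← intervalIntegral.integral_const_mul]
    refine intervalIntegral.integral_mono_on hxy ((EM_ii N ℓ t x y).norm.const_mul z)
      (((i1.const_mul r).const_mul _).add (((i2.const_mul (z ^ 2)).const_mul r⁻¹).const_mul _)) fun τ _ => ?_
    rw [norm_mul, EP_eq, MP_eq]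
    set A := ‖PZ N aE τ t‖
    set B := ‖PZ N (aM ℓ) τ t‖
    have hA : 0 ≤ A := norm_nonneg _
    have hB : 0 ≤ B := norm_nonneg _
    have h3 : 0 ≤ r⁻¹ * (r * A - z * B) ^ 2 := by positivity
    have h4 : r⁻¹ * (r * A - z * B) ^ 2 = r * A ^ 2 - 2 * (z * (A * B)) + r⁻¹ * (z ^ 2 * B ^ 2) := by
      field_simp
      ring
    linarith
  refine (mul_le_mul_of_nonneg_left h1 hz).trans (h2.trans (le_of_eq ?_))
  rw [intervalIntegral.integral_add ((i1.const_mul r).const_mul _)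
    (((i2.const_mul (z ^ 2)).const_mul r⁻¹).const_mul _), intervalIntegral.integral_const_mul,
    intervalIntegral.integral_const_mul, intervalIntegral.integral_const_mul,
    intervalIntegral.integral_const_mul, intervalIntegral.integral_const_mul]
  ring

/-- the bound for a piece after integration over `t` -/
def RP (k : ℕ) (T : ℝ) (N : ℕ) (ℓ x y r : ℝ) : ℝ :=
  1 / 2 * (r * (∫ τ in x..y, EE k T N τ) + r⁻¹ * ∫ τ in x..y, WM k T N (ℓ - τ))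

theorem first_le {k : ℕ} (hk : 1 ≤ k) {T : ℝ} (hT : 0 < T) {N : ℕ} (hN1 : 1 ≤ N) {ℓ : ℝ} (hℓ : 0 ≤ ℓ)
    (hN : Real.exp ℓ ≤ N + 1) {x y r1 r2 r3 : ℝ} (hx : 0 ≤ x) (hxy : x ≤ y) (hy : y ≤ ℓ)
    (h1 : 0 < r1) (h2 : 0 < r2) (h3 : 0 < r3) :
    2 / 3 * ℓ ^ (3 / 2 : ℝ) * ∫ t in Set.Ioi (0 : ℝ), om k (k / T) t * ‖riemannZeta (cl t)‖ ≤
      RP k T N ℓ 0 x r1 + RP k T N ℓ x y r2 + RP k T N ℓ y ℓ r3 := by
  have hk0 : (0 : ℝ) < k := by exact_mod_cast hk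
  have hd : (0 : ℝ) < k / T := by positivity
  have hwo : ∀ m n, IntegrableOn (fun t => om k (k / T) t * rr m n t) (Set.Ioi 0) := fun m n =>
    om_intR k hd (rr_cont m n) ⟨1, 0, fun t _ => by simpa using rr_bd m n t⟩
  have hww : ∀ m n, IntegrableOn (fun t => wt k T t * rr m n t) (Set.Ioi 0) := fun m n =>
    wt_intg hT hk (rr_cont m n) ⟨1, 0, fun t _ => by simpa using rr_bd m n t⟩
  have sE := fun u v : ℝ => swap (x := u) (y := v) hwo N aE (fun m n => aE_ii m n _ _)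
  have sM := fun u v : ℝ => swap (x := u) (y := v) hww N (aM ℓ) (fun m n => aM_ii ℓ m n _ _)
  -- the pieces
  obtain ⟨G, hG⟩ : ∃ G : ℝ → ℝ → ℝ → ℝ → ℝ, ∀ u v r t, G u v r t = om k (k / T) t *
      (1 / 2 * (r * (∫ τ in u..v, ‖PZ N aE τ t‖ ^ 2) +
        r⁻¹ * (‖riemannZeta (cl t)‖ ^ 2 * ∫ τ in u..v, ‖PZ N (aM ℓ) τ t‖ ^ 2))) := ⟨_, fun _ _ _ _ => rfl⟩
  have pc : ∀ u v r : ℝ, u ≤ v → 0 < r →
      IntegrableOn (G u v r) (Set.Ioi 0) ∧
      ∫ t in Set.Ioi (0 : ℝ), G u v r t = RP k T N ℓ u v r := by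
    intro u v r _ hr
    obtain ⟨a1, -, a3⟩ := sE u v
    obtain ⟨b1, -, b3⟩ := sM u v
    have e : ∀ t, G u v r t =
        (1 / 2 * r) * (om k (k / T) t * ∫ τ in u..v, ‖PZ N aE τ t‖ ^ 2) +
        (1 / 2 * r⁻¹) * (wt k T t * ∫ τ in u..v, ‖PZ N (aM ℓ) τ t‖ ^ 2) := by
      intro t
      rw [hG]
      unfold Pool.Agent.L7h20.TM3.wt
      ring
    rw [show G u v r = _ from funext e]
    refine ⟨(a1.const_mul _).add (b1.const_mul _), ?_⟩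
    rw [integral_add (a1.const_mul _) (b1.const_mul _), integral_const_mul, integral_const_mul, a3, b3]
    unfold RP EE WM
    simp only [EP_eq, MP_eq]
    ring
  obtain ⟨i1, j1⟩ := pc 0 x r1 hx h1
  obtain ⟨i2, j2⟩ := pc x y r2 hxy h2
  obtain ⟨i3, j3⟩ := pc y ℓ r3 hy h3
  have i12 : IntegrableOn (fun t => G 0 x r1 t + G x y r2 t) (Set.Ioi 0) := i1.add i2
  have i123 : IntegrableOn (fun t => G 0 x r1 t + G x y r2 t + G y ℓ r3 t) (Set.Ioi 0) := i12.add i3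
  have j12 : ∫ t in Set.Ioi (0 : ℝ), (G 0 x r1 t + G x y r2 t + G y ℓ r3 t) =
      RP k T N ℓ 0 x r1 + RP k T N ℓ x y r2 + RP k T N ℓ y ℓ r3 := by
    rw [integral_add i12 i3, integral_add i1 i2, j1, j2, j3]
  rw [← j12, ← integral_const_mul]
  refine setIntegral_mono_on ?_ i123 measurableSet_Ioi fun t ht => ?_
  · refine Integrable.const_mul ?_ _
    refine om_intR k hd zeta_cl_cont.norm ⟨24, 2, fun t ht => ?_⟩
    rw [abs_of_nonneg (norm_nonneg _)]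
    have h2 := zeta_cl_bd ht
    refine (abs_le_of_sq_le_sq' ?_ (by positivity)).2
    calc ‖riemannZeta (cl t)‖ ^ 2 ≤ 576 * (1 + t) ^ 4 := h2
      _ = (24 * (1 + t) ^ 2) ^ 2 := by ring
  · have ht0 : (0 : ℝ) ≤ t := le_of_lt ht
    have ho := om_nonneg k hd ht0
    have hid := pt_id hℓ hN1 hN t
    have ii := EM_ii N ℓ t
    have hsplit : ∫ τ in (0 : ℝ)..ℓ, EP N τ t * MP N (ℓ - τ) t =
        (∫ τ in (0 : ℝ)..x, EP N τ t * MP N (ℓ - τ) t) + (∫ τ in x..y, EP N τ t * MP N (ℓ - τ) t) +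
          ∫ τ in y..ℓ, EP N τ t * MP N (ℓ - τ) t := by
      rw [intervalIntegral.integral_add_adjacent_intervals (ii 0 x) (ii x y),
        intervalIntegral.integral_add_adjacent_intervals (ii 0 y) (ii y ℓ)]
    set z := ‖riemannZeta (cl t)‖
    have hz : 0 ≤ z := norm_nonneg _
    have q1 := piece_pt N ℓ t hx h1 hz
    have q2 := piece_pt N ℓ t hxy h2 hz
    have q3 := piece_pt N ℓ t hy h3 hz
    have hn : 2 / 3 * ℓ ^ (3 / 2 : ℝ) = ‖∫ τ in (0 : ℝ)..ℓ, EP N τ t * MP N (ℓ - τ) t‖ := by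
      rw [hid, Complex.norm_real, Real.norm_of_nonneg (by positivity)]
    have hn2 : 2 / 3 * ℓ ^ (3 / 2 : ℝ) ≤ ‖∫ τ in (0 : ℝ)..x, EP N τ t * MP N (ℓ - τ) t‖ +
        ‖∫ τ in x..y, EP N τ t * MP N (ℓ - τ) t‖ + ‖∫ τ in y..ℓ, EP N τ t * MP N (ℓ - τ) t‖ := by
      rw [hn, hsplit]
      exact norm_add₃_le
    have h5 : 2 / 3 * ℓ ^ (3 / 2 : ℝ) * z ≤
        1 / 2 * (r1 * (∫ τ in (0 : ℝ)..x, ‖PZ N aE τ t‖ ^ 2) +
          r1⁻¹ * (z ^ 2 * ∫ τ in (0 : ℝ)..x, ‖PZ N (aM ℓ) τ t‖ ^ 2)) +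
        1 / 2 * (r2 * (∫ τ in x..y, ‖PZ N aE τ t‖ ^ 2) +
          r2⁻¹ * (z ^ 2 * ∫ τ in x..y, ‖PZ N (aM ℓ) τ t‖ ^ 2)) +
        1 / 2 * (r3 * (∫ τ in y..ℓ, ‖PZ N aE τ t‖ ^ 2) +
          r3⁻¹ * (z ^ 2 * ∫ τ in y..ℓ, ‖PZ N (aM ℓ) τ t‖ ^ 2)) := by
      have h6 := mul_le_mul_of_nonneg_right hn2 hz
      linarith
    have h7 := mul_le_mul_of_nonneg_left h5 ho
    rw [hG, hG, hG]
    calc 2 / 3 * ℓ ^ (3 / 2 : ℝ) * (om k (k / T) t * z) = om k (k / T) t * (2 / 3 * ℓ ^ (3 / 2 : ℝ) * z) := by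
          ring
      _ ≤ _ := h7
      _ = _ := by ring

end

end Pool.Agent.L7h11.DP
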