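import Pool.Agent.L7h11.DP.Fin
import Pool.Agent.H262R4.TM.All2
import Pool.Agent.L7h47.DP.Qu
import Pool.Agent.L7h26.DP.Bd
import Pool.Agent.L7h26.DP.Dg
import Pool.Agent.L7h32.DP.Sl
import Pool.Agent.L7h32.DP.Sk

set_option autoImplicit false

/-! Project DP: the first moment, main theorem. -/

namespace Pool.Agent.L7h11.DP

open Finset Filter Topology MeasureTheory
open Pool.Agent.H306R2 Pool.Agent.H306R2.SM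
open Pool.Agent.H262R4.TM (P_TSM2 Rng Ck f_TSM2)
open Pool.Agent.L7h20.TM3 (wt wt_intg wt_nn zeta_cl_cont zeta_cl_bd upper_window)
open Pool.Agent.L7h20.TM4 (mo mo_cont mo_norm nsq rr rr_cont rr_bd)

noncomputable section

lemma int_pow {x y q : ℝ} (hq : 0 < q) : ∫ τ in x..y, τ ^ q = (y ^ (q + 1) - x ^ (q + 1)) / (q + 1) :=
  integral_rpow (Or.inl (by linarith))

lemma int_pow_sub {x y q ℓ : ℝ} (hq : 0 < q) :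
    ∫ τ in x..y, (ℓ - τ) ^ q = ((ℓ - x) ^ (q + 1) - (ℓ - y) ^ (q + 1)) / (q + 1) := by
  rw [intervalIntegral.integral_comp_sub_left (fun τ => τ ^ q), int_pow hq]

lemma pow_cont {q : ℝ} (hq : 0 < q) : Continuous (fun τ : ℝ => τ ^ q) :=
  Real.continuous_rpow_const hq.le

lemma pow_sub_cont {q : ℝ} (hq : 0 < q) (ℓ : ℝ) : Continuous (fun τ : ℝ => (ℓ - τ) ^ q) :=
  (pow_cont hq).comp (continuous_const.sub continuous_id)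

lemma EE_ii {k : ℕ} (hk : 1 ≤ k) {T : ℝ} (hT : 0 < T) (N : ℕ) (x y : ℝ) :
    IntervalIntegrable (fun τ => EE k T N τ) volume x y := by
  have hk0 : (0 : ℝ) < k := by exact_mod_cast hk
  have hwo : ∀ m n, IntegrableOn (fun t => om k (k / T) t * rr m n t) (Set.Ioi 0) := fun m n =>
    om_intR k (by positivity) (rr_cont m n) ⟨1, 0, fun t _ => by simpa using rr_bd m n t⟩
  exact (swap (x := x) (y := y) hwo N aE (fun m n => aE_ii m n _ _)).2.1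

lemma WM_ii {k : ℕ} (hk : 1 ≤ k) {T : ℝ} (hT : 0 < T) (N : ℕ) (ℓ x y : ℝ) :
    IntervalIntegrable (fun τ => WM k T N (ℓ - τ)) volume x y := by
  have hww : ∀ m n, IntegrableOn (fun t => wt k T t * rr m n t) (Set.Ioi 0) := fun m n =>
    wt_intg hT hk (rr_cont m n) ⟨1, 0, fun t _ => by simpa using rr_bd m n t⟩
  exact (swap (x := x) (y := y) hww N (aM ℓ) (fun m n => aM_ii ℓ m n _ _)).2.1

lemma RP_le {k : ℕ} (hk : 1 ≤ k) {T : ℝ} (hT : 0 < T) {N : ℕ} {ℓ θ K C1 C2 : ℝ} (hℓ : 0 < ℓ) (hθ : 0 < θ)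
    (hC1 : 0 ≤ C1) (hC2 : 0 ≤ C2)
    (hE : ∀ τ : ℝ, 0 ≤ τ → EE k T N τ ≤ K * τ ^ (1 / 4 : ℝ) + C1)
    (hM : ∀ c : ℝ, 0 ≤ c → c ≤ ℓ → WM k T N c ≤ K * (Real.pi / 4) *
      (ℓ / θ * c ^ (1 / 4 : ℝ) + 4 / 5 * c ^ (5 / 4 : ℝ)) + C2 * (ℓ / θ))
    {α β ρ : ℝ} (hα : 0 ≤ α) (hαβ : α ≤ β) (hβ : β ≤ 1) (hρ : 0 < ρ) :
    RP k T N ℓ (α * ℓ) (β * ℓ) (√ℓ * ρ) ≤ K * ℓ ^ (7 / 4 : ℝ) * PP θ α β ρ +
      1 / 2 * (ρ * C1 + ρ⁻¹ * (C2 / θ)) * ℓ ^ (3 / 2 : ℝ) := by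
  have hxy : α * ℓ ≤ β * ℓ := by gcongr
  have hx0 : 0 ≤ α * ℓ := by positivity
  have hyℓ : β * ℓ ≤ ℓ := by nlinarith
  have hs : 0 < √ℓ := Real.sqrt_pos.2 hℓ
  have e1 : ∫ τ in (α * ℓ)..(β * ℓ), EE k T N τ ≤
      ∫ τ in (α * ℓ)..(β * ℓ), (K * τ ^ (1 / 4 : ℝ) + C1) := by
    refine intervalIntegral.integral_mono_on hxy (EE_ii hk hT N _ _)
      (((pow_cont (by norm_num)).const_mul _ |>.add continuous_const).intervalIntegrable _ _)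
      fun τ hτ => hE τ (hx0.trans hτ.1)
  have e2 : ∫ τ in (α * ℓ)..(β * ℓ), WM k T N (ℓ - τ) ≤
      ∫ τ in (α * ℓ)..(β * ℓ), (K * (Real.pi / 4) *
        (ℓ / θ * (ℓ - τ) ^ (1 / 4 : ℝ) + 4 / 5 * (ℓ - τ) ^ (5 / 4 : ℝ)) + C2 * (ℓ / θ)) := by
    refine intervalIntegral.integral_mono_on hxy (WM_ii hk hT N ℓ _ _) ?_
      fun τ hτ => hM (ℓ - τ) (by linarith [hτ.2]) (by linarith [hτ.1])
    refine Continuous.intervalIntegrable ?_ _ _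
    have c1 := pow_sub_cont (q := 1 / 4) (by norm_num) ℓ
    have c2 := pow_sub_cont (q := 5 / 4) (by norm_num) ℓ
    exact ((continuous_const.mul ((continuous_const.mul c1).add (continuous_const.mul c2))).add
      continuous_const)
  have f1 : ∫ τ in (α * ℓ)..(β * ℓ), (K * τ ^ (1 / 4 : ℝ) + C1) =
      K * (4 / 5 * ((β * ℓ) ^ (5 / 4 : ℝ) - (α * ℓ) ^ (5 / 4 : ℝ))) + C1 * (β * ℓ - α * ℓ) := by
    rw [intervalIntegral.integral_add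
      (((pow_cont (by norm_num)).const_mul _).intervalIntegrable _ _)
      (continuous_const.intervalIntegrable _ _), intervalIntegral.integral_const_mul, int_pow (by norm_num),
      intervalIntegral.integral_const, smul_eq_mul]
    norm_num
    ring
  have f2 : ∫ τ in (α * ℓ)..(β * ℓ), (K * (Real.pi / 4) *
        (ℓ / θ * (ℓ - τ) ^ (1 / 4 : ℝ) + 4 / 5 * (ℓ - τ) ^ (5 / 4 : ℝ)) + C2 * (ℓ / θ)) =
      K * (Real.pi / 4) * (ℓ / θ * (4 / 5 * ((ℓ - α * ℓ) ^ (5 / 4 : ℝ) - (ℓ - β * ℓ) ^ (5 / 4 : ℝ))) +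
        4 / 5 * (4 / 9 * ((ℓ - α * ℓ) ^ (9 / 4 : ℝ) - (ℓ - β * ℓ) ^ (9 / 4 : ℝ)))) +
        C2 * (ℓ / θ) * (β * ℓ - α * ℓ) := by
    have c1 := pow_sub_cont (q := 1 / 4) (by norm_num) ℓ
    have c2 := pow_sub_cont (q := 5 / 4) (by norm_num) ℓ
    have k1 : Continuous (fun τ : ℝ => ℓ / θ * (ℓ - τ) ^ (1 / 4 : ℝ)) := continuous_const.mul c1
    have k2 : Continuous (fun τ : ℝ => 4 / 5 * (ℓ - τ) ^ (5 / 4 : ℝ)) := continuous_const.mul c2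
    have k3 : Continuous (fun τ : ℝ => K * (Real.pi / 4) *
        (ℓ / θ * (ℓ - τ) ^ (1 / 4 : ℝ) + 4 / 5 * (ℓ - τ) ^ (5 / 4 : ℝ))) := continuous_const.mul (k1.add k2)
    have k4 : Continuous (fun _ : ℝ => C2 * (ℓ / θ)) := continuous_const
    rw [intervalIntegral.integral_add (k3.intervalIntegrable _ _) (k4.intervalIntegrable _ _),
      intervalIntegral.integral_const_mul,
      intervalIntegral.integral_add (k1.intervalIntegrable _ _) (k2.intervalIntegrable _ _),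
      intervalIntegral.integral_const_mul,
      intervalIntegral.integral_const_mul, int_pow_sub (by norm_num), int_pow_sub (by norm_num),
      intervalIntegral.integral_const, smul_eq_mul]
    norm_num
    ring
  rw [f1] at e1
  rw [f2] at e2
  have hp5 : ∀ z : ℝ, 0 ≤ z → (z * ℓ) ^ (5 / 4 : ℝ) = z ^ (5 / 4 : ℝ) * ℓ ^ (5 / 4 : ℝ) := fun z hz =>
    Real.mul_rpow hz hℓ.le
  have hp9 : ∀ z : ℝ, 0 ≤ z → (z * ℓ) ^ (9 / 4 : ℝ) = z ^ (9 / 4 : ℝ) * ℓ ^ (9 / 4 : ℝ) := fun z hz =>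
    Real.mul_rpow hz hℓ.le
  have s1 : ℓ - α * ℓ = (1 - α) * ℓ := by ring
  have s2 : ℓ - β * ℓ = (1 - β) * ℓ := by ring
  have hβ0 : 0 ≤ β := hα.trans hαβ
  rw [hp5 β hβ0, hp5 α hα] at e1
  rw [s1, s2, hp5 _ (by linarith), hp5 _ (by linarith), hp9 _ (by linarith), hp9 _ (by linarith)] at e2
  -- the powers of ℓ
  have w1 : √ℓ * ℓ ^ (5 / 4 : ℝ) = ℓ ^ (7 / 4 : ℝ) := by
    rw [Real.sqrt_eq_rpow, ← Real.rpow_add hℓ]; norm_num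
  have w0 : (√ℓ)⁻¹ = ℓ ^ (-(1 / 2) : ℝ) := by
    rw [Real.sqrt_eq_rpow, ← Real.rpow_neg hℓ.le]
  have w2 : (√ℓ)⁻¹ * ℓ * ℓ ^ (5 / 4 : ℝ) = ℓ ^ (7 / 4 : ℝ) := by
    rw [w0]
    nth_rewrite 2 [← Real.rpow_one ℓ]
    rw [← Real.rpow_add hℓ, ← Real.rpow_add hℓ]; norm_num
  have w3 : (√ℓ)⁻¹ * ℓ ^ (9 / 4 : ℝ) = ℓ ^ (7 / 4 : ℝ) := by
    rw [w0, ← Real.rpow_add hℓ]; norm_num
  have w4 : √ℓ * ℓ = ℓ ^ (3 / 2 : ℝ) := by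
    rw [Real.sqrt_eq_rpow]
    nth_rewrite 2 [← Real.rpow_one ℓ]
    rw [← Real.rpow_add hℓ]; norm_num
  have w5 : (√ℓ)⁻¹ * ℓ * ℓ = ℓ ^ (3 / 2 : ℝ) := by
    rw [w0]
    nth_rewrite 2 3 [← Real.rpow_one ℓ]
    rw [← Real.rpow_add hℓ, ← Real.rpow_add hℓ]; norm_num
  have hr : 0 < √ℓ * ρ := by positivity
  have hri : (√ℓ * ρ)⁻¹ = (√ℓ)⁻¹ * ρ⁻¹ := by rw [mul_inv]
  have hbA : 0 ≤ β - α := by linarith
  have hbB : β - α ≤ 1 := by linarith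
  have t1 := mul_le_mul_of_nonneg_left e1 hr.le
  have t2 := mul_le_mul_of_nonneg_left e2 (inv_nonneg.2 hr.le)
  have g1 : √ℓ * ρ * (K * (4 / 5 * (β ^ (5 / 4 : ℝ) * ℓ ^ (5 / 4 : ℝ) - α ^ (5 / 4 : ℝ) * ℓ ^ (5 / 4 : ℝ))) +
      C1 * (β * ℓ - α * ℓ)) = K * ℓ ^ (7 / 4 : ℝ) * (ρ * (4 / 5 * (β ^ (5 / 4 : ℝ) - α ^ (5 / 4 : ℝ)))) +
      ρ * C1 * (β - α) * ℓ ^ (3 / 2 : ℝ) := by
    rw [← w1, ← w4]; ring
  have g2 : (√ℓ * ρ)⁻¹ * (K * (Real.pi / 4) * (ℓ / θ * (4 / 5 * ((1 - α) ^ (5 / 4 : ℝ) * ℓ ^ (5 / 4 : ℝ) -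
        (1 - β) ^ (5 / 4 : ℝ) * ℓ ^ (5 / 4 : ℝ))) +
        4 / 5 * (4 / 9 * ((1 - α) ^ (9 / 4 : ℝ) * ℓ ^ (9 / 4 : ℝ) - (1 - β) ^ (9 / 4 : ℝ) * ℓ ^ (9 / 4 : ℝ)))) +
        C2 * (ℓ / θ) * (β * ℓ - α * ℓ)) =
      K * ℓ ^ (7 / 4 : ℝ) * (ρ⁻¹ * (Real.pi / 4 * (θ⁻¹ * (4 / 5 * ((1 - α) ^ (5 / 4 : ℝ) -
        (1 - β) ^ (5 / 4 : ℝ))) + 4 / 5 * (4 / 9 * ((1 - α) ^ (9 / 4 : ℝ) - (1 - β) ^ (9 / 4 : ℝ)))))) +
      ρ⁻¹ * (C2 / θ) * (β - α) * ℓ ^ (3 / 2 : ℝ) := by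
    rw [hri]
    have v1 : (√ℓ)⁻¹ * ρ⁻¹ * (K * (Real.pi / 4) * (ℓ / θ * (4 / 5 * ((1 - α) ^ (5 / 4 : ℝ) * ℓ ^ (5 / 4 : ℝ) -
        (1 - β) ^ (5 / 4 : ℝ) * ℓ ^ (5 / 4 : ℝ))) +
        4 / 5 * (4 / 9 * ((1 - α) ^ (9 / 4 : ℝ) * ℓ ^ (9 / 4 : ℝ) - (1 - β) ^ (9 / 4 : ℝ) * ℓ ^ (9 / 4 : ℝ)))) +
        C2 * (ℓ / θ) * (β * ℓ - α * ℓ)) =
        K * ρ⁻¹ * (Real.pi / 4) * (θ⁻¹ * (4 / 5 * ((1 - α) ^ (5 / 4 : ℝ) - (1 - β) ^ (5 / 4 : ℝ))) *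
          ((√ℓ)⁻¹ * ℓ * ℓ ^ (5 / 4 : ℝ)) +
          4 / 5 * (4 / 9 * ((1 - α) ^ (9 / 4 : ℝ) - (1 - β) ^ (9 / 4 : ℝ))) * ((√ℓ)⁻¹ * ℓ ^ (9 / 4 : ℝ))) +
        ρ⁻¹ * (C2 / θ) * (β - α) * ((√ℓ)⁻¹ * ℓ * ℓ) := by
      ring
    rw [v1, w2, w3, w5]
    ring
  rw [g1] at t1
  rw [g2] at t2
  have u1 : ρ * C1 * (β - α) * ℓ ^ (3 / 2 : ℝ) ≤ ρ * C1 * ℓ ^ (3 / 2 : ℝ) := by
    have : 0 ≤ ρ * C1 * ℓ ^ (3 / 2 : ℝ) := by positivity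
    nlinarith
  have u2 : ρ⁻¹ * (C2 / θ) * (β - α) * ℓ ^ (3 / 2 : ℝ) ≤ ρ⁻¹ * (C2 / θ) * ℓ ^ (3 / 2 : ℝ) := by
    have : 0 ≤ ρ⁻¹ * (C2 / θ) * ℓ ^ (3 / 2 : ℝ) := by positivity
    nlinarith
  unfold RP PP
  nlinarith

/-- the first moment with the Gamma weight -/
theorem first_gen (hTSM : P_TSM2) (hQU : S_QU) : ∃ c : ℝ, 0 ≤ c ∧ c < 34 / 25 ∧
    ∀ᶠ T : ℝ in atTop, ∀ k : ℕ, Rng T k →
      ∫ t in Set.Ioi (0 : ℝ), om k (k / T) t * ‖riemannZeta (cl t)‖ ≤ (c * A0) * Real.log T ^ (1 / 4 : ℝ) := by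
  have hnum := num
  set θ : ℝ := 259 / 500 with hθ
  set S := PP θ 0 (1 / 4) (15 / 8) + PP θ (1 / 4) (3 / 4) (4 / 3) + PP θ (3 / 4) 1 (19 / 20) with hS
  set q := 3 / 2 * θ ^ (1 / 4 : ℝ) * S with hq
  have hA := A0_pos
  -- choice of ε
  obtain ⟨ε, hε, hε2⟩ : ∃ ε : ℝ, 0 < ε ∧ (1 + ε) * q < 34 / 25 := by
    have hc : ContinuousAt (fun ε : ℝ => (1 + ε) * q) 0 := by fun_prop
    have h0 : (fun ε : ℝ => (1 + ε) * q) 0 < 34 / 25 := by simpa using hnum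
    have h1 : ∀ᶠ ε in 𝓝[>] (0:ℝ), (1 + ε) * q < 34 / 25 :=
      (hc.eventually (gt_mem_nhds h0)).filter_mono nhdsWithin_le_nhds
    obtain ⟨ε, h2, h3⟩ := (h1.and self_mem_nhdsWithin).exists
    exact ⟨ε, h3, h2⟩
  obtain ⟨C1, hC1, hEm⟩ := E_mean hε
  obtain ⟨C2, hC2, hMm⟩ := M_mean hTSM hQU (θ := θ) (by norm_num) (by norm_num) hε
  obtain ⟨c, hc1, hc2⟩ := exists_between (show max ((1 + ε) * q) 0 < 34 / 25 by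
    rw [max_lt_iff]; exact ⟨hε2, by norm_num⟩)
  have hcq : (1 + ε) * q < c := (le_max_left _ _).trans_lt hc1
  have hc0 : 0 ≤ c := ((le_max_right _ _).trans_lt hc1).le
  refine ⟨c, hc0, hc2, ?_⟩
  set D := 1 / 2 * (15 / 8 * C1 + (15 / 8 : ℝ)⁻¹ * (C2 / θ)) + 1 / 2 * (4 / 3 * C1 + (4 / 3 : ℝ)⁻¹ * (C2 / θ)) +
    1 / 2 * (19 / 20 * C1 + (19 / 20 : ℝ)⁻¹ * (C2 / θ)) with hD
  have hgap : 0 < (c - (1 + ε) * q) * A0 := mul_pos (by linarith) hA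
  have s1 : ∀ᶠ T : ℝ in atTop, 3 / 2 * D ≤ (c - (1 + ε) * q) * A0 * Real.log T ^ (1 / 4 : ℝ) := by
    have h := ((tendsto_rpow_atTop (show (0 : ℝ) < 1 / 4 by norm_num)).comp
      Real.tendsto_log_atTop).const_mul_atTop hgap
    exact h.eventually_ge_atTop _
  filter_upwards [hEm, hMm, s1, Real.tendsto_log_atTop.eventually_ge_atTop 4, eventually_gt_atTop 1]
    with T hEm hMm s1 hL hT1 k hk
  have hT0 : 0 < T := by linarith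
  set L := Real.log T with hLd
  have hL0 : 0 < L := by linarith
  have hk1 : 1 ≤ k := by
    have : (1 : ℝ) ≤ k := le_trans (by nlinarith) hk.1
    exact_mod_cast this
  set ℓ := θ * L with hℓd
  have hθ0 : (0 : ℝ) < θ := by norm_num
  have hℓ : 0 < ℓ := by positivity
  set N := ⌊Real.exp ℓ⌋₊ with hN
  have hN1 : 1 ≤ N := Nat.le_floor (by
    push_cast
    exact Real.one_le_exp hℓ.le)
  have hN2 : Real.exp ℓ ≤ N + 1 := (Nat.lt_floor_add_one _).le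
  have hNT : (N : ℝ) ≤ T ^ (3 / 5 : ℝ) := by
    refine (Nat.floor_le (Real.exp_pos ℓ).le).trans ?_
    rw [Real.rpow_def_of_pos hT0, ← hLd]
    refine Real.exp_le_exp.2 ?_
    rw [hℓd, hθ]
    nlinarith
  have hLℓ : ℓ / θ = L := by
    rw [hℓd]; field_simp
  have hE : ∀ τ : ℝ, 0 ≤ τ → EE k T N τ ≤ (1 + ε) * A0 * τ ^ (1 / 4 : ℝ) + C1 := fun τ hτ =>
    hEm k hk N hNT τ hτ
  have hM : ∀ c : ℝ, 0 ≤ c → c ≤ ℓ → WM k T N c ≤ (1 + ε) * A0 * (Real.pi / 4) *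
      (ℓ / θ * c ^ (1 / 4 : ℝ) + 4 / 5 * c ^ (5 / 4 : ℝ)) + C2 * (ℓ / θ) := by
    intro c hc hcℓ
    have h1 := hMm k hk N c hc hcℓ ((Real.exp_le_exp.2 hcℓ).trans hN2)
    rw [hLℓ]
    unfold WM
    refine h1.trans (le_of_eq ?_)
    ring
  have p1 := RP_le hk1 hT0 hℓ hθ0 hC1 hC2 hE hM (α := 0) (β := 1 / 4) (ρ := 15 / 8) le_rfl (by norm_num)
    (by norm_num) (by norm_num)
  have p2 := RP_le hk1 hT0 hℓ hθ0 hC1 hC2 hE hM (α := 1 / 4) (β := 3 / 4) (ρ := 4 / 3) (by norm_num)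
    (by norm_num) (by norm_num) (by norm_num)
  have p3 := RP_le hk1 hT0 hℓ hθ0 hC1 hC2 hE hM (α := 3 / 4) (β := 1) (ρ := 19 / 20) (by norm_num)
    (by norm_num) le_rfl (by norm_num)
  rw [zero_mul] at p1
  rw [one_mul] at p3
  have hsq : 0 < √ℓ := Real.sqrt_pos.2 hℓ
  have h1 := first_le (k := k) hk1 hT0 hN1 hℓ.le hN2 (x := 1 / 4 * ℓ) (y := 3 / 4 * ℓ)
    (r1 := √ℓ * (15 / 8)) (r2 := √ℓ * (4 / 3)) (r3 := √ℓ * (19 / 20)) (by positivity) (by nlinarith)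
    (by nlinarith) (by positivity) (by positivity) (by positivity)
  set X := ∫ t in Set.Ioi (0 : ℝ), om k (k / T) t * ‖riemannZeta (cl t)‖ with hX
  have h2 : 2 / 3 * ℓ ^ (3 / 2 : ℝ) * X ≤ (1 + ε) * A0 * ℓ ^ (7 / 4 : ℝ) * S + D * ℓ ^ (3 / 2 : ℝ) := by
    refine h1.trans ((add_le_add (add_le_add p1 p2) p3).trans (le_of_eq ?_))
    rw [hS, hD]; ring
  have e7 : ℓ ^ (7 / 4 : ℝ) = ℓ ^ (3 / 2 : ℝ) * (θ ^ (1 / 4 : ℝ) * L ^ (1 / 4 : ℝ)) := by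
    rw [← Real.mul_rpow hθ0.le hL0.le, ← hℓd, ← Real.rpow_add hℓ]
    norm_num
  have hp : 0 < ℓ ^ (3 / 2 : ℝ) := by positivity
  have h3 : ℓ ^ (3 / 2 : ℝ) * X ≤ ℓ ^ (3 / 2 : ℝ) * ((1 + ε) * q * A0 * L ^ (1 / 4 : ℝ) + 3 / 2 * D) := by
    have : (1 + ε) * A0 * ℓ ^ (7 / 4 : ℝ) * S + D * ℓ ^ (3 / 2 : ℝ) =
        2 / 3 * (ℓ ^ (3 / 2 : ℝ) * ((1 + ε) * q * A0 * L ^ (1 / 4 : ℝ) + 3 / 2 * D)) := by
      rw [e7, hq]; ring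
    rw [this] at h2
    linarith
  have h4 := le_of_mul_le_mul_left h3 hp
  refine h4.trans ?_
  have e8 : c * A0 * L ^ (1 / 4 : ℝ) = (1 + ε) * q * A0 * L ^ (1 / 4 : ℝ) +
      (c - (1 + ε) * q) * A0 * L ^ (1 / 4 : ℝ) := by ring
  rw [e8]
  linarith

theorem first_upper (hQU : S_QU) (α : ℝ) (hα : α < 1) :
    ∀ᶠ T : ℝ in atTop, ∀ U H : ℝ, 0 ≤ U → U + H ≤ T → T / Real.log T ^ α ≤ H →
      ∫ t in U..(U + H), ‖riemannZeta (cl t)‖ ≤ 34 / 25 * A0 * H * Real.log T ^ (1 / 4 : ℝ) := by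
  obtain ⟨c, hc, hc', h⟩ := first_gen f_TSM2 hQU
  refine upper_window (fun t => ‖riemannZeta (cl t)‖) zeta_cl_cont.norm
    (fun t => norm_nonneg _) ⟨24, 2, fun t ht => ?_⟩ (c * A0) (mul_nonneg hc A0_pos.le) (1 / 4)
    (by norm_num) ?_ α hα ?_
  · have h2 := zeta_cl_bd ht
    refine (abs_le_of_sq_le_sq' ?_ (by positivity)).2
    calc ‖riemannZeta (cl t)‖ ^ 2 ≤ 576 * (1 + t) ^ 4 := h2
      _ = (24 * (1 + t) ^ 2) ^ 2 := by ring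
  · filter_upwards [h] with T hT k hk1 hk2
    exact hT k ⟨hk1, hk2⟩
  · exact mul_lt_mul_of_pos_right hc' A0_pos

end

end Pool.Agent.L7h11.DP
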