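import Pool.Agent.L7h11.DP.Pt
import Pool.Agent.L7h20.TM3.Ev2

set_option autoImplicit false

/-! Project DP: the mean value of `|ζ M(c)|²`. -/

namespace Pool.Agent.L7h11.DP

open Finset Filter Topology MeasureTheory
open Pool.Agent.H306R2 Pool.Agent.H306R2.SM
open Pool.Agent.H262R4.TM (P_TSM2 Rng Ck)
open Pool.Agent.L7h20.TM3 (wt wt_intg wt_nn zeta_cl_cont EV EV_one)
open Pool.Agent.L7h20.TM4 (mo mo_cont mo_norm mean_bil nsq int_nsq bf ee La)

noncomputable section

lemma lc_neg_bd (m : ℕ) : |lc (-(1 / 2)) m| ≤ 1 := by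
  unfold lc
  rw [abs_prod]
  refine prod_le_one (fun i _ => abs_nonneg _) fun i _ => ?_
  have h : (0 : ℝ) < (i : ℝ) + 1 := by positivity
  rw [abs_div, abs_of_pos h, div_le_one h, abs_le]
  constructor <;> linarith [(Nat.cast_nonneg i : (0 : ℝ) ≤ i)]

lemma fc_bd (n : ℕ) : |fc n| ≤ 1 := by
  unfold fc dv
  split_ifs with h
  · simp
  · unfold Finsupp.prod
    rw [abs_prod]
    exact prod_le_one (fun i _ => abs_nonneg _) fun i _ => lc_neg_bd _

lemma fc_zero : fc 0 = 0 := by unfold fc dv; simp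

/-- the polynomial does not depend on `N` -/
lemma MP_trunc {N N' : ℕ} {c : ℝ} (h : Real.exp c ≤ N + 1) (h' : Real.exp c ≤ N' + 1) (t : ℝ) :
    MP N c t = MP N' c t := by
  wlog hle : N ≤ N' generalizing N N'
  · exact (this h' h (by omega)).symm
  unfold MP
  refine sum_subset (fun x hx => ?_) fun x hx hx' => ?_
  · rw [mem_Icc] at hx ⊢; omega
  · rw [mem_Icc] at hx hx'
    have h1 : N + 1 ≤ x := by omega
    have h2 : Real.exp c ≤ x := h.trans (by exact_mod_cast h1)
    have h3 : c ≤ Real.log x := (Real.le_log_iff_exp_le (by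
      have : 0 < x := by omega
      exact_mod_cast this)).2 h2
    rw [Real.sqrt_eq_zero_of_nonpos (by linarith)]
    simp

lemma MP_cont (N : ℕ) (c : ℝ) : Continuous (MP N c) := by
  unfold MP
  exact continuous_finsetSum _ fun n _ => continuous_const.mul (mo_cont n)

lemma MP_bd (N : ℕ) {c : ℝ} (hc : 0 ≤ c) (t : ℝ) : ‖MP N c t‖ ≤ N * √c := by
  unfold MP
  refine (norm_sum_le _ _).trans ?_
  have h1 : ∀ n ∈ Icc 1 N, ‖((fc n * √(c - Real.log n) : ℝ) : ℂ) * mo n t‖ ≤ √c := by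
    intro n _
    rw [norm_mul, Complex.norm_real, Real.norm_eq_abs, abs_mul, abs_of_nonneg (Real.sqrt_nonneg _)]
    calc |fc n| * √(c - Real.log n) * ‖mo n t‖ ≤ 1 * √c * 1 := by
          gcongr
          · exact fc_bd n
          · linarith [Real.log_natCast_nonneg n]
          · exact mo_norm t
      _ = √c := by ring
  refine (sum_le_sum h1).trans (le_of_eq ?_)
  simp

/-- the two parameters -/
def Zk (k : ℕ) (T : ℝ) : ℝ := Real.log (Yf k T) + Ck k

lemma Zk_bd {k : ℕ} (hk : 1 ≤ k) {T : ℝ} (hT : 0 < T) :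
    Zk k T ≤ Real.log T ∧ Real.log T - 2 ≤ Zk k T := by
  have hk0 : (0 : ℝ) < k := by exact_mod_cast hk
  unfold Zk Yf Ck
  have h1 := harmonic_le_one_add_log k
  have h2 := log_add_one_le_harmonic k
  have h3 : Real.log (k : ℝ) ≤ Real.log ((k + 1 : ℕ) : ℝ) := Real.log_le_log hk0 (by push_cast; linarith)
  have hg1 := Real.one_half_lt_eulerMascheroniConstant
  have hg2 := Real.eulerMascheroniConstant_lt_two_thirds
  have hpi := Real.pi_gt_three
  have hpi2 := Real.pi_lt_d2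
  have e : Real.log (T / (2 * Real.pi * k)) = Real.log T - (Real.log (2 * Real.pi) + Real.log k) := by
    rw [Real.log_div hT.ne' (by positivity), Real.log_mul (by positivity) hk0.ne']
  have l1 : Real.log (2 * Real.pi) ≤ 2 := by
    rw [Real.log_le_iff_le_exp (by positivity)]
    have h6 : (2.7182818283 : ℝ) ^ 2 ≤ Real.exp 2 := by
      have := Real.exp_one_gt_d9
      calc (2.7182818283 : ℝ) ^ 2 ≤ (Real.exp 1) ^ 2 := by gcongr
        _ = Real.exp 2 := by rw [← Real.exp_nat_mul]; norm_num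
    norm_num at h6
    linarith
  have l2 : 5 / 3 ≤ Real.log (2 * Real.pi) := by
    rw [Real.le_log_iff_exp_le (by positivity)]
    have h6 : Real.exp (5 / 3) ≤ 5.5 := by
      have h7 : Real.exp (5 / 3) ^ 3 = Real.exp 1 ^ 5 := by
        rw [← Real.exp_nat_mul, ← Real.exp_nat_mul]; norm_num
      have h8 := Real.exp_one_lt_d9
      have h9 : Real.exp 1 ^ 5 ≤ 2.7182818286 ^ 5 := by gcongr
      refine le_of_pow_le_pow_left₀ (n := 3) (by norm_num) (by norm_num) ?_
      rw [h7]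
      refine h9.trans ?_
      norm_num
    linarith
  rw [e]
  constructor
  · linarith
  · linarith

theorem M_mean (hTSM : P_TSM2) (hQU : S_QU) {θ : ℝ} (hθ0 : 0 < θ) (hθ : θ < 14 / 27) {ε : ℝ} (hε : 0 < ε) :
    ∃ C : ℝ, 0 ≤ C ∧ ∀ᶠ T : ℝ in atTop, ∀ k : ℕ, Rng T k → ∀ N : ℕ, ∀ c : ℝ, 0 ≤ c →
      c ≤ θ * Real.log T → Real.exp c ≤ N + 1 →
      ∫ t in Set.Ioi (0 : ℝ), wt k T t * ‖MP N c t‖ ^ 2 ≤
        (1 + ε) * (Real.pi / 4 * A0) * (Real.log T * c ^ (1 / 4 : ℝ) + 4 / 5 * c ^ (5 / 4 : ℝ)) +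
          C * Real.log T := by
  obtain ⟨ℓ0, hℓ0, hQ⟩ := hQU ε hε
  obtain ⟨η, hη, hB⟩ := mean_bil hTSM hθ
  have hA0 : 0 < A0 := div_pos (aF_pos (by norm_num)) (Real.Gamma_pos_of_pos (by norm_num))
  refine ⟨2 * (Real.exp ℓ0 * √ℓ0) ^ 2 + 2, by positivity, ?_⟩
  have hsm : ∀ᶠ T : ℝ in atTop, T ^ (-η) ≤ 1 :=
    (tendsto_rpow_neg_atTop hη).eventually_le_const (by norm_num)
  filter_upwards [hB, hsm, EV_one hTSM, Real.tendsto_log_atTop.eventually_ge_atTop 8,
    eventually_gt_atTop 1] with T hB hsm hone hL hT1 k hk N c hc hcT hN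
  have hT0 : 0 < T := by linarith
  set L := Real.log T with hLd
  have hk1 : 1 ≤ k := by
    have : (1 : ℝ) ≤ k := le_trans (by nlinarith) hk.1
    exact_mod_cast this
  have hmain : 0 ≤ (1 + ε) * (Real.pi / 4 * A0) * (L * c ^ (1 / 4 : ℝ) + 4 / 5 * c ^ (5 / 4 : ℝ)) := by
    have := Real.pi_pos
    positivity
  set N' := ⌊Real.exp c⌋₊ with hN'
  have hN'1 : Real.exp c ≤ N' + 1 := (Nat.lt_floor_add_one _).le
  have hMP : ∀ t, MP N c t = MP N' c t := fun t => MP_trunc hN hN'1 t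
  simp only [hMP]
  rcases lt_or_ge c ℓ0 with hcl | hcl
  · -- small c
    have hN'2 : (N' : ℝ) ≤ Real.exp ℓ0 :=
      (Nat.floor_le (Real.exp_pos c).le).trans (Real.exp_le_exp.2 hcl.le)
    have hbd : ∀ t, ‖MP N' c t‖ ^ 2 ≤ (Real.exp ℓ0 * √ℓ0) ^ 2 := by
      intro t
      have h1 := MP_bd N' hc t
      have h2 : (N' : ℝ) * √c ≤ Real.exp ℓ0 * √ℓ0 := by
        gcongr
      exact pow_le_pow_left₀ (norm_nonneg _) (h1.trans h2) 2
    have hw : IntegrableOn (fun t => wt k T t * 1) (Set.Ioi 0) :=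
      wt_intg hT0 hk1 continuous_const ⟨1, 0, fun t _ => by simp⟩
    have h4 := hone k hk 0
    have e4 : EV k T (fun _ => 1) 0 = ∫ t in Set.Ioi (0 : ℝ), wt k T t * 1 := by
      unfold Pool.Agent.L7h20.TM3.EV
      first
      | rfl
      | simp
    rw [e4] at h4
    calc ∫ t in Set.Ioi (0 : ℝ), wt k T t * ‖MP N' c t‖ ^ 2
        ≤ ∫ t in Set.Ioi (0 : ℝ), (Real.exp ℓ0 * √ℓ0) ^ 2 * (wt k T t * 1) := by
          refine setIntegral_mono_on ?_ (hw.const_mul _) measurableSet_Ioi fun t ht => ?_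
          · exact wt_intg hT0 hk1 ((MP_cont N' c).norm.pow 2) ⟨(Real.exp ℓ0 * √ℓ0) ^ 2, 0, fun t _ => by
              simpa using hbd t⟩
          · have := wt_nn (k := k) hT0 (le_of_lt ht)
            nlinarith [hbd t]
      _ = (Real.exp ℓ0 * √ℓ0) ^ 2 * ∫ t in Set.Ioi (0 : ℝ), wt k T t * 1 := integral_const_mul _ _
      _ ≤ (Real.exp ℓ0 * √ℓ0) ^ 2 * (2 * L) := by gcongr
      _ ≤ (2 * (Real.exp ℓ0 * √ℓ0) ^ 2 + 2) * L := by nlinarith
      _ ≤ _ := by linarith
  · -- large c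
    have hc0 : 0 < c := by linarith
    have hsc : 0 < √c := Real.sqrt_pos.2 hc0
    set a : ℕ → ℝ := fun n => fc n * √(c - Real.log n) / √c with ha
    have ha1 : ∀ n, |a n| ≤ 1 := by
      intro n
      rw [ha]
      simp only
      rw [abs_div, abs_of_pos hsc, div_le_one hsc, abs_mul, abs_of_nonneg (Real.sqrt_nonneg _)]
      calc |fc n| * √(c - Real.log n) ≤ 1 * √c := by
            gcongr
            · exact fc_bd n
            · linarith [Real.log_natCast_nonneg n]
        _ = √c := one_mul _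
    have hNT : (N' : ℝ) ≤ T ^ θ := by
      refine (Nat.floor_le (Real.exp_pos c).le).trans ?_
      rw [Real.rpow_def_of_pos hT0, mul_comm]
      exact Real.exp_le_exp.2 hcT
    have h1 := hB k hk N' hNT a a ha1 ha1
    -- the mean value
    have e1 : ∀ t, ‖MP N' c t‖ ^ 2 = c * ∑ m ∈ Icc 1 N', ∑ n ∈ Icc 1 N', a m * a n *
        Pool.Agent.L7h20.TM4.rr m n t := by
      intro t
      rw [← nsq]
      have e2 : MP N' c t = ((√c : ℝ) : ℂ) * ∑ n ∈ Icc 1 N', (a n : ℂ) * mo n t := by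
        unfold MP
        rw [mul_sum]
        refine sum_congr rfl fun n _ => ?_
        rw [← mul_assoc, ← Complex.ofReal_mul, ha]
        congr 2
        field_simp
      rw [e2, norm_mul, mul_pow, Complex.norm_real, Real.norm_eq_abs, sq_abs, Real.sq_sqrt hc]
    have e3 : ∫ t in Set.Ioi (0 : ℝ), wt k T t * ‖MP N' c t‖ ^ 2 = c * bf (ee k T) N' a a := by
      rw [← int_nsq hT0 hk1, ← integral_const_mul]
      congr 1
      funext t
      rw [e1]
      ring
    have e4 : c * bf (La k T) N' a a = QQ (Zk k T) c := by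
      unfold bf QQ
      rw [mul_sum, ← hN']
      refine sum_congr rfl fun m hm => ?_
      rw [mul_sum]
      refine sum_congr rfl fun n hn => ?_
      have hm0 : (0 : ℝ) < m := by exact_mod_cast (mem_Icc.1 hm).1
      have hn0 : (0 : ℝ) < n := by exact_mod_cast (mem_Icc.1 hn).1
      have hg : (0 : ℝ) < (Nat.gcd m n : ℝ) := by
        exact_mod_cast Nat.gcd_pos_of_pos_left _ (mem_Icc.1 hm).1
      have hk0 : (0 : ℝ) < k := by exact_mod_cast hk1
      have hY : 0 < Yf k T := by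
        unfold Yf
        have := Real.pi_pos
        positivity
      have e5 : Real.log (Yf k T * (Nat.gcd m n : ℝ) ^ 2 / ((m : ℝ) * n)) =
          Real.log (Yf k T) + Real.log ((Nat.gcd m n : ℝ) ^ 2 / ((m : ℝ) * n)) := by
        rw [mul_div_assoc, Real.log_mul hY.ne' (by positivity)]
      unfold La Zk
      rw [e5, ha]
      simp only
      have hcc : c = √c * √c := (Real.mul_self_sqrt hc).symm
      have e6 : c * (fc m * √(c - Real.log m) / √c * (fc n * √(c - Real.log n) / √c)) =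
          (fc m * √(c - Real.log m)) * (fc n * √(c - Real.log n)) := by
        field_simp
        rw [Real.sq_sqrt hc]
        ring
      rw [← mul_assoc, e6]
      ring
    have e7 : bf (fun m n => ee k T m n - La k T m n) N' a a = bf (ee k T) N' a a - bf (La k T) N' a a := by
      unfold bf
      rw [← sum_sub_distrib]
      refine sum_congr rfl fun m _ => ?_
      rw [← sum_sub_distrib]
      refine sum_congr rfl fun n _ => ?_
      ring
    rw [e7] at h1
    obtain ⟨z1, z2⟩ := Zk_bd hk1 hT0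
    rw [← hLd] at z1 z2
    have hcZ : c ≤ Zk k T := by
      have : θ * L ≤ 14 / 27 * L := by gcongr
      linarith
    have h5 := hQ c hcl (Zk k T) hcZ
    have h6 : (1 + ε) * (Real.pi / 4 * A0) * (Zk k T * c ^ (1 / 4 : ℝ) + 4 / 5 * c ^ (5 / 4 : ℝ)) ≤
        (1 + ε) * (Real.pi / 4 * A0) * (L * c ^ (1 / 4 : ℝ) + 4 / 5 * c ^ (5 / 4 : ℝ)) := by
      have := Real.pi_pos
      gcongr
    have h7 : bf (ee k T) N' a a ≤ bf (La k T) N' a a + 2 * T ^ (-η) := by
      have := (abs_le.1 h1).2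
      linarith
    rw [e3]
    have hcL : c ≤ L := by
      have : θ * L ≤ 14 / 27 * L := by gcongr
      linarith
    calc c * bf (ee k T) N' a a ≤ c * (bf (La k T) N' a a + 2 * T ^ (-η)) := by gcongr
      _ = QQ (Zk k T) c + c * (2 * T ^ (-η)) := by rw [mul_add, e4]
      _ ≤ (1 + ε) * (Real.pi / 4 * A0) * (L * c ^ (1 / 4 : ℝ) + 4 / 5 * c ^ (5 / 4 : ℝ)) + L * (2 * 1) := by
          gcongr
          exact h5.trans h6
      _ ≤ _ := by
          have : 0 ≤ (Real.exp ℓ0 * √ℓ0) ^ 2 * L := by positivity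
          nlinarith

end

end Pool.Agent.L7h11.DP
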