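import Pool.Agent.L7h11.DP.Stm
import Pool.Agent.L7h20.TM4.Pw

set_option autoImplicit false

/-! Project DP: the pointwise identity `∫ E(τ) M(ℓ-τ) dτ = (2/3) ℓ^(3/2)`. -/

namespace Pool.Agent.L7h11.DP

open Finset Filter Topology MeasureTheory
open Pool.Agent.H306R2 Pool.Agent.H306R2.SM
open Pool.Agent.L7h20.TM4 (mo mo_mul sum_anti mo_cont mo_norm)

noncomputable section

/-- the partial sums of `ζ^(1/2)` -/
def EP (N : ℕ) (τ t : ℝ) : ℂ :=
  ∑ n ∈ Icc 1 N, ((if Real.log n ≤ τ then dv (1 / 2) n else 0 : ℝ) : ℂ) * mo n t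

/-- the weighted partial sums of `ζ^(-1/2)` -/
def MP (N : ℕ) (c t : ℝ) : ℂ :=
  ∑ m ∈ Icc 1 N, ((fc m * √(c - Real.log m) : ℝ) : ℂ) * mo m t

lemma dv_fc {k : ℕ} (hk : 1 ≤ k) :
    ∑ x ∈ k.divisorsAntidiagonal, dv (1 / 2) x.1 * fc x.2 = if k = 1 then 1 else 0 := by
  have h : dA (1 / 2) * dA (-(1 / 2)) = 1 := by
    rw [dA_mul]
    norm_num
    exact dA_zero
  have h2 := congrArg (fun A : ArithmeticFunction ℝ => A k) h
  simp only [ArithmeticFunction.mul_apply, dA_apply, ArithmeticFunction.one_apply] at h2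
  exact h2

lemma int_sqrt {x : ℝ} (hx : 0 ≤ x) : ∫ y in (0 : ℝ)..x, √y = 2 / 3 * x ^ (3 / 2 : ℝ) := by
  have h : ∀ y ∈ Set.uIcc 0 x, √y = y ^ (1 / 2 : ℝ) := fun y _ => Real.sqrt_eq_rpow y
  rw [intervalIntegral.integral_congr h, integral_rpow (Or.inl (by norm_num))]
  rw [show (1 / 2 : ℝ) + 1 = 3 / 2 by norm_num, Real.zero_rpow (by norm_num)]
  ring

lemma int_sqrt_shift {b : ℝ} (hb : 0 ≤ b) {x : ℝ} (hx : 0 ≤ x) :
    ∫ y in (0 : ℝ)..x, √(y - b) = 2 / 3 * (max 0 (x - b)) ^ (3 / 2 : ℝ) := by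
  rw [intervalIntegral.integral_comp_sub_right (fun y => √y)]
  have hc : Continuous fun y : ℝ => √y := Real.continuous_sqrt
  have hneg : ∀ z w : ℝ, z ≤ 0 → w ≤ 0 → ∫ y in z..w, √y = 0 := by
    intro z w hz hw
    have h : ∀ y ∈ Set.uIcc z w, √y = (fun _ => (0 : ℝ)) y := by
      intro y hy
      have : y ≤ 0 := by
        rcases le_total z w with h | h
        · rw [Set.uIcc_of_le h] at hy; exact hy.2.trans hw
        · rw [Set.uIcc_of_ge h] at hy; exact hy.2.trans hz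
      exact Real.sqrt_eq_zero_of_nonpos this
    rw [intervalIntegral.integral_congr h]
    simp
  rcases le_total x b with h | h
  · rw [hneg _ _ (by linarith) (by linarith), max_eq_left (by linarith), Real.zero_rpow (by norm_num),
      mul_zero]
  · rw [max_eq_right (by linarith),
      ← intervalIntegral.integral_add_adjacent_intervals (b := 0) (hc.intervalIntegrable _ _)
        (hc.intervalIntegrable _ _), hneg _ _ (by linarith) le_rfl, int_sqrt (by linarith), zero_add]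

lemma step_ii (a x y : ℝ) : IntervalIntegrable (fun τ : ℝ => if a ≤ τ then (1 : ℝ) else 0) volume x y := by
  refine Monotone.intervalIntegrable fun s t hst => ?_
  split_ifs with h1 h2 h2
  · exact le_rfl
  · exact absurd (h1.trans hst) h2
  · exact zero_le_one
  · exact le_rfl

lemma ker_ii (a b ℓ x y : ℝ) :
    IntervalIntegrable (fun τ : ℝ => (if a ≤ τ then (1 : ℝ) else 0) * √(ℓ - τ - b)) volume x y :=
  (step_ii a x y).mul_continuousOn (by fun_prop)

lemma ker_int {ℓ a b : ℝ} (hℓ : 0 ≤ ℓ) (ha : 0 ≤ a) (hb : 0 ≤ b) :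
    ∫ τ in (0 : ℝ)..ℓ, (if a ≤ τ then (1 : ℝ) else 0) * √(ℓ - τ - b) =
      2 / 3 * (max 0 (ℓ - a - b)) ^ (3 / 2 : ℝ) := by
  rcases le_total ℓ a with h | h
  · rw [max_eq_left (by linarith), Real.zero_rpow (by norm_num), mul_zero]
    have h0 : ∀ᵐ τ ∂(volume : Measure ℝ), τ ∈ Set.uIoc 0 ℓ →
        (if a ≤ τ then (1 : ℝ) else 0) * √(ℓ - τ - b) = 0 := by
      refine Eventually.of_forall fun τ hτ => ?_
      rw [Set.uIoc_of_le hℓ] at hτ
      by_cases hh : a ≤ τ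
      · have : τ = ℓ := le_antisymm hτ.2 (h.trans hh)
        rw [this, Real.sqrt_eq_zero_of_nonpos (by linarith), mul_zero]
      · rw [if_neg hh, zero_mul]
    rw [intervalIntegral.integral_congr_ae h0]
    simp
  · rw [← intervalIntegral.integral_add_adjacent_intervals (ker_ii a b ℓ 0 a) (ker_ii a b ℓ a ℓ)]
    have h1 : ∫ τ in (0 : ℝ)..a, (if a ≤ τ then (1 : ℝ) else 0) * √(ℓ - τ - b) = 0 := by
      have h0 : ∀ᵐ τ ∂(volume : Measure ℝ), τ ∈ Set.uIoc 0 a →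
          (if a ≤ τ then (1 : ℝ) else 0) * √(ℓ - τ - b) = 0 := by
        have hae : ∀ᵐ τ ∂(volume : Measure ℝ), τ ≠ a := by
          rw [ae_iff]
          simp
        filter_upwards [hae] with τ hτa hτ
        rw [Set.uIoc_of_le ha] at hτ
        rw [if_neg (not_le.2 (lt_of_le_of_ne hτ.2 hτa)), zero_mul]
      rw [intervalIntegral.integral_congr_ae h0]
      simp
    have h2 : ∫ τ in a..ℓ, (if a ≤ τ then (1 : ℝ) else 0) * √(ℓ - τ - b) =
        ∫ τ in a..ℓ, √((ℓ - τ) - b) := by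
      refine intervalIntegral.integral_congr fun τ hτ => ?_
      rw [Set.uIcc_of_le h] at hτ
      simp only [if_pos hτ.1, one_mul]
    rw [h1, h2, zero_add, intervalIntegral.integral_comp_sub_left (fun y => √(y - b)), sub_self,
      int_sqrt_shift hb (by linarith)]

theorem pt_id {ℓ : ℝ} (hℓ : 0 ≤ ℓ) {N : ℕ} (hN1 : 1 ≤ N) (hN : Real.exp ℓ ≤ N + 1) (t : ℝ) :
    ∫ τ in (0 : ℝ)..ℓ, EP N τ t * MP N (ℓ - τ) t = ((2 / 3 * ℓ ^ (3 / 2 : ℝ) : ℝ) : ℂ) := by
  have e1 : ∀ τ : ℝ, EP N τ t * MP N (ℓ - τ) t = ∑ n ∈ Icc 1 N, ∑ m ∈ Icc 1 N,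
      ((((if Real.log n ≤ τ then (1 : ℝ) else 0) * √(ℓ - τ - Real.log m) : ℝ)) : ℂ) *
        (((dv (1 / 2) n * fc m : ℝ) : ℂ) * (mo n t * mo m t)) := by
    intro τ
    unfold EP MP
    rw [sum_mul_sum]
    refine sum_congr rfl fun n _ => sum_congr rfl fun m _ => ?_
    split_ifs <;> push_cast <;> ring
  have hii : ∀ n m : ℕ, IntervalIntegrable (fun τ : ℝ =>
      ((((if Real.log n ≤ τ then (1 : ℝ) else 0) * √(ℓ - τ - Real.log m) : ℝ)) : ℂ) *
        (((dv (1 / 2) n * fc m : ℝ) : ℂ) * (mo n t * mo m t))) volume 0 ℓ := fun n m => by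
    have h := ker_ii (Real.log n) (Real.log m) ℓ 0 ℓ
    have h2 : IntervalIntegrable (fun τ : ℝ =>
      ((((if Real.log n ≤ τ then (1 : ℝ) else 0) * √(ℓ - τ - Real.log m) : ℝ)) : ℂ)) volume 0 ℓ :=
      ⟨h.1.ofReal, h.2.ofReal⟩
    exact h2.mul_const _
  have hlog : ∀ n : ℕ, 0 ≤ Real.log n := fun n => Real.log_natCast_nonneg n
  have e2 : ∫ τ in (0 : ℝ)..ℓ, EP N τ t * MP N (ℓ - τ) t = ∑ n ∈ Icc 1 N, ∑ m ∈ Icc 1 N,
      ((2 / 3 * (max 0 (ℓ - Real.log n - Real.log m)) ^ (3 / 2 : ℝ) : ℝ) : ℂ) *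
        (((dv (1 / 2) n * fc m : ℝ) : ℂ) * (mo n t * mo m t)) := by
    rw [show (fun τ => EP N τ t * MP N (ℓ - τ) t) = _ from funext e1]
    have hs : ∀ n : ℕ, IntervalIntegrable (fun τ : ℝ => ∑ m ∈ Icc 1 N,
      ((((if Real.log n ≤ τ then (1 : ℝ) else 0) * √(ℓ - τ - Real.log m) : ℝ)) : ℂ) *
        (((dv (1 / 2) n * fc m : ℝ) : ℂ) * (mo n t * mo m t))) volume 0 ℓ := by
      intro n
      have h2 : (fun τ : ℝ => ∑ m ∈ Icc 1 N,
        ((((if Real.log n ≤ τ then (1 : ℝ) else 0) * √(ℓ - τ - Real.log m) : ℝ)) : ℂ) *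
        (((dv (1 / 2) n * fc m : ℝ) : ℂ) * (mo n t * mo m t))) = ∑ m ∈ Icc 1 N, fun τ : ℝ =>
        ((((if Real.log n ≤ τ then (1 : ℝ) else 0) * √(ℓ - τ - Real.log m) : ℝ)) : ℂ) *
        (((dv (1 / 2) n * fc m : ℝ) : ℂ) * (mo n t * mo m t)) := by
        funext τ
        simp only [Finset.sum_apply]
      rw [h2]
      exact IntervalIntegrable.sum _ fun m _ => hii n m
    rw [intervalIntegral.integral_finsetSum fun n _ => hs n]
    refine sum_congr rfl fun n _ => ?_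
    rw [intervalIntegral.integral_finsetSum fun m _ => hii n m]
    refine sum_congr rfl fun m _ => ?_
    rw [intervalIntegral.integral_mul_const, intervalIntegral.integral_ofReal,
      ker_int hℓ (hlog n) (hlog m)]
  rw [e2, sum_anti N (fun a b => ((2 / 3 * (max 0 (ℓ - Real.log a - Real.log b)) ^ (3 / 2 : ℝ) : ℝ) : ℂ) *
        (((dv (1 / 2) a * fc b : ℝ) : ℂ) * (mo a t * mo b t))) ?_]
  · have e3 : ∀ k ∈ Icc 1 N, ∑ x ∈ k.divisorsAntidiagonal,
        ((2 / 3 * (max 0 (ℓ - Real.log x.1 - Real.log x.2)) ^ (3 / 2 : ℝ) : ℝ) : ℂ) *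
        (((dv (1 / 2) x.1 * fc x.2 : ℝ) : ℂ) * (mo x.1 t * mo x.2 t)) =
        if k = 1 then ((2 / 3 * ℓ ^ (3 / 2 : ℝ) : ℝ) : ℂ) else 0 := by
      intro k hk
      have hk1 := (mem_Icc.1 hk).1
      have h4 : ∀ x ∈ k.divisorsAntidiagonal,
        ((2 / 3 * (max 0 (ℓ - Real.log x.1 - Real.log x.2)) ^ (3 / 2 : ℝ) : ℝ) : ℂ) *
        (((dv (1 / 2) x.1 * fc x.2 : ℝ) : ℂ) * (mo x.1 t * mo x.2 t)) =
        (((2 / 3 * (max 0 (ℓ - Real.log k)) ^ (3 / 2 : ℝ) : ℝ) : ℂ) * mo k t) *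
          ((dv (1 / 2) x.1 * fc x.2 : ℝ) : ℂ) := by
        intro x hx
        rw [Nat.mem_divisorsAntidiagonal] at hx
        have p1 : x.1 ≠ 0 := fun h => hx.2 (by rw [← hx.1, h, zero_mul])
        have p2 : x.2 ≠ 0 := fun h => hx.2 (by rw [← hx.1, h, mul_zero])
        have hl : Real.log (k : ℝ) = Real.log x.1 + Real.log x.2 := by
          rw [← hx.1]
          push_cast
          exact Real.log_mul (by exact_mod_cast p1) (by exact_mod_cast p2)
        have hm : mo k t = mo x.1 t * mo x.2 t := by rw [← mo_mul, hx.1]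
        rw [hl, hm, sub_sub]
        ring
      rw [sum_congr rfl h4, ← mul_sum, ← Complex.ofReal_sum, dv_fc hk1]
      by_cases h : k = 1
      · subst h
        have : mo 1 t = 1 := by
          unfold Pool.Agent.L7h20.TM4.mo
          simp
        rw [if_pos rfl, if_pos rfl, this]
        simp [max_eq_right hℓ]
      · rw [if_neg h, if_neg h]
        simp
    rw [sum_congr rfl e3]
    rw [sum_ite_eq' (Icc 1 N) 1, if_pos (mem_Icc.2 ⟨le_rfl, hN1⟩)]
  · intro a b hab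
    have ha : a ≠ 0 := fun h => by rw [h, zero_mul] at hab; omega
    have hb : b ≠ 0 := fun h => by rw [h, mul_zero] at hab; omega
    have h1 : ℓ ≤ Real.log a + Real.log b := by
      rw [← Real.log_mul (by exact_mod_cast ha) (by exact_mod_cast hb), Real.le_log_iff_exp_le (by positivity)]
      refine hN.trans ?_
      exact_mod_cast hab
    rw [max_eq_left (by linarith), Real.zero_rpow (by norm_num)]
    simp

end

end Pool.Agent.L7h11.DP
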