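import Mathlib
import Pool.Agent.H306R2.Defs

set_option autoImplicit false

/-!
# Project DP (helper11): the first moment of zeta, upper bound with the constant `34/25`

MP_91b7ff_nt, `k = 1`: `∫_U^{U+H} |ζ(1/2+it)| dt ≤ (34/25) A/Γ(5/4) · H (log T)^(1/4)` for `H ≥ T/(log T)^α`, `α < 1`
(starting result `FirstMoment`: `107/50`; conjecture `1.036`).

Method: dual pairs.  `E(τ) = ∑_{log n ≤ τ} d_{1/2}(n) n^{-s}`,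
`M(c) = ∑_{log m ≤ c} d_{-1/2}(m) √(c - log m) m^{-s}`.  Since `d_{1/2} * d_{-1/2} = δ`,
`∫_0^ℓ E(τ) M(ℓ-τ) dτ = (2/3) ℓ^(3/2)`, hence
`(2/3) ℓ^(3/2) |ζ| ≤ (1/2) ∫_0^ℓ (r(τ) |E(τ)|² + |ζ M(ℓ-τ)|² / r(τ)) dτ`, and both mean values can be
computed for `ℓ = θ log T`, `θ < 14/27` (for the second: the twisted second moment `P_TSM2` of the starting
library and Selberg's diagonalisation, below).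

All statements here are about arithmetic functions and elementary analysis.  `dv κ` = coefficients of `ζ^κ`,
`lc κ a = dv κ (p^a)`, library `Pool.Agent.H306R2.Defs`, `.Arith` (`dA_mult`, `dA_mul : dA α * dA β = dA (α+β)`,
`dA_zero`, `dA_one`, `lc_conv`, `dv_prime_pow`, `dv_nonneg`).
-/

namespace Pool.Agent.L7h11.DP

open Finset Filter Topology MeasureTheory
open Pool.Agent.H306R2 (lc dv aF)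

noncomputable section

/-- coefficients of `ζ^(-1/2)` -/
def fc (n : ℕ) : ℝ := dv (-(1 / 2)) n

/-- `F u = ∑_{m ≤ e^u} f(m)/m` -/
def FF (u : ℝ) : ℝ := ∑ m ∈ Icc 1 ⌊Real.exp u⌋₊, fc m / m

/-- `B_d(u) = ∑_{m ≤ e^u} f(dm)/m · √(u - log m)` -/
def BB (d : ℕ) (u : ℝ) : ℝ := ∑ m ∈ Icc 1 ⌊Real.exp u⌋₊, fc (d * m) / m * √(u - Real.log m)

/-- the coefficients `h_d` with `f(d·) = h_d * f` -/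
def hd (d k : ℕ) : ℝ := ∑ x ∈ k.divisorsAntidiagonal, fc (d * x.1) * dv (1 / 2) x.2

/-- `λ_d = ∑_k h_d(k)/k` -/
def lam (d : ℕ) : ℝ := ∑' k : ℕ, hd d k / k

/-- majorant of everything that depends on `d` -/
def KK (d : ℕ) : ℝ := ∏ p ∈ d.primeFactors, (1 / 2 + 3 * (p : ℝ) ^ (-(3 / 4) : ℝ))

/-- the constant `A/Γ(5/4)` -/
def A0 : ℝ := aF (1 / 2) / Real.Gamma (5 / 4)

/-- [PNT]  Mertens' sum with a good error term; `g` is Euler's constant but this is not needed.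
Library: `Pool.Agent.H442R2.EHI` (`PntErr.lean`): `|ψ(N) - N| ≤ N/(log N)^U` for all `U`; partial summation
(`∑_{n≤N} Λ(n)/n = ψ(N)/N + ∑_{n<N} ψ(n)/(n(n+1))`, and `∑ (ψ(n)-n)/(n(n+1))` converges with tail `≪ 1/log²`). -/
def S_PNT : Prop := ∃ g C : ℝ, ∀ N : ℕ, 1 ≤ N →
  |∑ n ∈ Icc 1 N, ArithmeticFunction.vonMangoldt n / n - (Real.log N - g)| ≤ C / (1 + Real.log N) ^ 2

/-- [LD]  local density of `d_{1/2}`.  Proof.  (a) `E(u) := ∑_{n≤e^u} d_{1/2}(n)/n ≤ √(2u+1)`, because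
`E(u)² ≤ ∑_{n ≤ e^{2u}} 1/n` (`d_{1/2} * d_{1/2} = 1`).  (b) `d_{1/2} log = (1/2) d_{1/2} * Λ` (compare on prime powers, or
derivation property of `log`), so `j ∑_{e^j ≤ n < e^{j+1}} d_{1/2}(n)/n ≤ (1/2) ∑_{k ≤ e^{j+1}} d_{1/2}(k)/k
∑_{e^j/k ≤ m < e^{j+1}/k} Λ(m)/m ≤ C E(j+1)` by Chebyshev (`ψ(x) ≤ 2x`).  -/
def S_LD : Prop := ∃ C : ℝ, 0 < C ∧ ∀ j M : ℕ,
  ∑ m ∈ (Icc 1 M).filter (fun m : ℕ => (j : ℝ) ≤ Real.log m ∧ Real.log m < j + 1), dv (1 / 2) m / m ≤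
    C / √(1 + j)

/-- [F]  asymptotics of `F`.  Proof from `S_PNT`, `S_LD`.  `f log = -(1/2) f * Λ`.  With `G(u) = ∫_0^u F`,
`u F(u) = G(u) + ∑_{m≤e^u} f(m) log m / m = G(u) - (1/2) ∑_{m≤e^u} f(m)/m (u - log m - g + ε(e^u/m))
= (1/2) G(u) + (g/2) F(u) - (1/2) R(u)`, and `|R(u)| ≤ C (1+u)^(-1/2)` by `S_LD` (`|f| ≤ d_{1/2}`) and
`|ε(x)| ≤ C/(1+log x)²`.  A priori `|F(u)| ≤ C (1+u)^(1/2)`.  Now `(G u^(-1/2))' = (u F - G/2) u^(-3/2)`; iterate twice: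
`G = c u^(1/2) + O(u^(-1/2))`, `F = (c/2) u^(-1/2) + O(u^(-3/2))`.  The constant: `s ∫_0^∞ F(u) e^{-su} du =
∑ f(m) m^{-1-s} = ζ(1+s)^(-1/2) ∼ √s` as `s → 0+`, so `(c/2) Γ(1/2) = 1`.  (Or: `∑_{kn≤e^u} f(k) d_{1/2}(n)/(kn) = 1` and
`E(u) ∼ u^(1/2)/Γ(3/2)`.) -/
def S_F : Prop := ∃ C : ℝ, 0 < C ∧ ∀ u : ℝ, 1 ≤ u → |FF u - 1 / √(Real.pi * u)| ≤ C * u ^ (-(3 / 2) : ℝ)

/-- [BL]  from `S_F`: `B_1(u) = (1/2) ∫_0^u F(v) (u-v)^(-1/2) dv → (1/2) π^(-1/2) ∫_0^1 v^(-1/2) (1-v)^(-1/2) dv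
= √π/2`. -/
def S_BL : Prop := Tendsto (BB 1) atTop (𝓝 (√Real.pi / 2))

/-- [HD]  the local coefficients.  (1) is associativity: `(f(d·) * d_{1/2}) * f = f(d·)`.  (2) `k ↦ h_d(k)/f(d)` is
multiplicative (`m ↦ f(dm)/f(d)` is, since `f(d) ≠ 0`), and `h_d(p^j) / f(d) = δ_{j,0}` for `p ∤ d`; for `p^a ∥ d`, `a ≥ 1`, the
local factor `∑_j |∑_{i≤j} lc(-1/2)(a+i) lc(1/2)(j-i)| p^(-3j/4) ≤ 1/2 + ∑_{j≥1} p^(-3j/4) ≤ 1/2 + 3 p^(-3/4)`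
(`∑_{n≥1} |lc(-1/2) n| ≤ 1`, `lc(1/2) ≤ 1`; `1/(1-2^(-3/4)) ≤ 3`).  So `∑_{k≤X} |h_d(k)| k^(-3/4) ≤ K_d`. -/
def S_HD : Prop := (∀ d m : ℕ, 1 ≤ d → 1 ≤ m →
    fc (d * m) = ∑ x ∈ m.divisorsAntidiagonal, hd d x.1 * fc x.2) ∧
  ∀ d X : ℕ, 1 ≤ d → ∑ k ∈ Icc 1 X, |hd d k| * (k : ℝ) ^ (-(3 / 4) : ℝ) ≤ KK d

/-- [BD]  uniform asymptotics, from `S_BL`, `S_HD`: `B_d(u) = ∑_k h_d(k)/k · B_1(u - log k)` (with `B_1 = 0` on the negative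
axis), `|B_1(v) - √π/2| ≤ ε + C e^{-v/4}` for all real `v`, and `e^{(log k)/4} / k = k^(-3/4)`. -/
def S_BD : Prop := ∀ ε : ℝ, 0 < ε → ∃ C : ℝ, 0 < C ∧ ∀ d : ℕ, 1 ≤ d → ∀ u : ℝ, 0 ≤ u →
  |BB d u - √Real.pi / 2 * lam d| ≤ KK d * (ε + C * Real.exp (-(u / 4)))

/-- [WIR]  mean values of multiplicative functions near `d_{1/4}` (all `g ≥ 0`).  Proof.  By Karamata's theorem (library
`Pool.Agent.H306R2.Karamata2`, `karamata` with `r = 1`, or the one-dimensional forms used in `R313/FM/Coef.lean`, `kar1`) it is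
enough that `s^(1/4) ∑ g(d) d^{-1-s} → P` as `s → 0+`; this is the Euler product `ζ(1+s)^(-1/4) ∏_p (...)`, dominated by
`∏ (1 + C' p^(-3/2))`, and `s ζ(1+s) → 1`. -/
def S_WIR : Prop := ∀ g : ℕ → ℝ, g 1 = 1 → (∀ n, 0 ≤ g n) →
  (∀ m n : ℕ, Nat.Coprime m n → g (m * n) = g m * g n) →
  ∀ C : ℝ, (∀ p a : ℕ, p.Prime → g (p ^ a) ≤ C) → (∀ p : ℕ, p.Prime → |g p - 1 / 4| ≤ C * (p : ℝ) ^ (-(1 / 2) : ℝ)) →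
  Tendsto (fun x : ℝ => (∑ d ∈ Icc 1 ⌊Real.exp x⌋₊, g d / d) / x ^ (1 / 4 : ℝ)) atTop
    (𝓝 ((∏' p : Nat.Primes, ((1 - 1 / (p : ℝ)) ^ ((1 : ℝ) / 4) *
      ∑' m : ℕ, g ((p : ℕ) ^ m) * (1 / (p : ℝ)) ^ m)) / Real.Gamma (5 / 4)))

/-- [SL]  from `S_WIR`, `S_HD`: the function `g(d) = φ(d) λ_d² / d`.  `λ` is multiplicative and
`λ_{p^a} = (1-1/p)^(-1/2) F_a`, `F_a = ∑_j lc(-1/2)(a+j) p^{-j}` for `a ≥ 1`, so `g(p^a) = F_a²`, `F_1 = -1/2 + O(1/p)`.  The local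
identity `1 + ∑_{a≥1} z^a F_a² = ∑_n lc(1/2)(n)² z^n` (`z = 1/p`): `∑_{i,j} f_i f_j z^{max(i,j)}` (`f_i = lc(-1/2) i`) equals
`(1-z) ∑_n z^n (∑_{i≤n} f_i)² = (1-z) ∑_n z^n lc(1/2)(n)²` and also (`z^{-min(i,j)} = 1 + ∑_{1≤a≤min} z^{-a}(1-z)`)
`(∑_n f_n z^n)² + (1-z) ∑_{a≥1} z^a F_a² = (1-z) + (1-z) ∑_{a≥1} z^a F_a²`. -/
def S_SL : Prop := Tendsto (fun x : ℝ => (∑ d ∈ Icc 1 ⌊Real.exp x⌋₊,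
  (Nat.totient d : ℝ) / (d : ℝ) ^ 2 * lam d ^ 2) / x ^ (1 / 4 : ℝ)) atTop (𝓝 A0)

/-- [SK]  from `S_WIR` -/
def S_SK : Prop := ∃ c : ℝ, Tendsto (fun x : ℝ => (∑ d ∈ Icc 1 ⌊Real.exp x⌋₊,
  (Nat.totient d : ℝ) / (d : ℝ) ^ 2 * KK d ^ 2) / x ^ (1 / 4 : ℝ)) atTop (𝓝 c)

/-- the quadratic form of the twisted second moment with the coefficients of `M(ℓ)`;
`Z = log Y + C_k` in the notation of the library -/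
def QQ (Z ℓ : ℝ) : ℝ := ∑ h ∈ Icc 1 ⌊Real.exp ℓ⌋₊, ∑ l ∈ Icc 1 ⌊Real.exp ℓ⌋₊,
  (fc h * √(ℓ - Real.log h)) * (fc l * √(ℓ - Real.log l)) *
    (1 / (Nat.lcm h l : ℝ) * (Z + Real.log ((Nat.gcd h l : ℝ) ^ 2 / ((h : ℝ) * l))))

/-- the Dirichlet convolution `Λ * φ` -/
def Lphi (d : ℕ) : ℝ := ∑ x ∈ d.divisorsAntidiagonal, ArithmeticFunction.vonMangoldt x.1 * (Nat.totient x.2 : ℝ)

/-- [DG]  Selberg's diagonalisation, an exact identity.  `g = ∑_{d|g} φ(d)`, `g log g = ∑_{d|g} (φ(d) log d + (Λ*φ)(d))`.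
With `S_d = ∑_{d|h} a_h/h = B_d(ℓ - log d)/d` and `h = d m`: `log(g²/(hl)) = 2 log g - log h - log l`,
`∑_{d|h} a_h log h/h = log d · S_d + (1/d) ∑_m f(dm)/m √(u_d - log m) log m`, `u_d = ℓ - log d`,
`log m = u_d - (u_d - log m)`, and `∑_m f(dm)/m (u - log m)^(3/2) = (3/2) ∫_0^u B_d(v) dv`. -/
def S_DG : Prop := ∀ Z ℓ : ℝ, 0 ≤ ℓ → QQ Z ℓ =
  (∑ d ∈ Icc 1 ⌊Real.exp ℓ⌋₊, (Nat.totient d : ℝ) / (d : ℝ) ^ 2 *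
    ((Z - 2 * (ℓ - Real.log d)) * BB d (ℓ - Real.log d) ^ 2 +
      3 * BB d (ℓ - Real.log d) * ∫ v in (0 : ℝ)..(ℓ - Real.log d), BB d v)) +
  2 * ∑ d ∈ Icc 1 ⌊Real.exp ℓ⌋₊, Lphi d / (d : ℝ) ^ 2 * BB d (ℓ - Real.log d) ^ 2

/-- [QU]  the mean of `|ζ M(ℓ)|²`, from `S_DG`, `S_BD`, `S_SL`, `S_SK`.  For `d ≤ e^ℓ`, `u = ℓ - log d ≤ ℓ ≤ Z` (so
`|Z - 2u| ≤ Z`): `|λ_d| ≤ C K_d` and `|B_d(u)| ≤ C K_d` (`S_BD` with `ε = 1`, `u → ∞`),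
`|B_d² - (π/4) λ_d²| ≤ C K_d² (ε + C_ε e^{-u/4})`, `|B_d ∫_0^u B_d - (π/4) λ_d² u| ≤ C K_d² (ε u + C_ε)`, so
`(Z-2u) B² + 3 B ∫B ≤ (π/4) λ_d² (Z + u) + C K_d² (ε Z + Z C_ε e^{-u/4} + C_ε)`; `∑_{d≤y} φ(d)K_d²/d² = O(ℓ^(1/4))`,
`∑_{d≤y} φ(d)K_d²/d² (d/y)^(1/4) = o(ℓ^(1/4))` (split at `d ≤ y/X`), `∑ φ(d)λ_d²/d² (ℓ - log d) = ∫_0^ℓ S ∼ (4/5) A0 ℓ^(5/4)`;
`(Λ*φ)`-part: `K_{p^a e}² ≤ 9 K_e²`, so it is `≪ ∑ log p/p^(2a) ∑_{e≤y} φ(e)K_e²/e² = O(ℓ^(1/4))`. -/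
def S_QU : Prop := ∀ ε : ℝ, 0 < ε → ∃ ℓ0 : ℝ, 0 < ℓ0 ∧ ∀ ℓ : ℝ, ℓ0 ≤ ℓ → ∀ Z : ℝ, ℓ ≤ Z →
  QQ Z ℓ ≤ (1 + ε) * (Real.pi / 4 * A0) * (Z * ℓ ^ (1 / 4 : ℝ) + 4 / 5 * ℓ ^ (5 / 4 : ℝ))

end

end Pool.Agent.L7h11.DP
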